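import Mathlib
import Pool.Agent.FV86.Parts

/-!
# Cyclic Sylow subgroups and fields of values: definitions (helper file for MP_79850a_al)

`ip f g` is the bilinear inner product `|G|⁻¹ ∑ f x g x⁻¹`, `IsCh φ` means that `φ` is a character,
`N1 φ` a character of norm one, `Con ρ φ` that `φ` is an irreducible constituent of `ρ`, and
`CycSyl G r` that all `r`-subgroups of `G` are cyclic. Paper proof: note 3530.
-/

set_option autoImplicit false

namespace Pool.Agent.CS26

open Pool.Agent.FV86

/-- The inner product. -/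
noncomputable def ip {G : Type*} [Group G] (f g : G → ℂ) : ℂ :=
  (Nat.card G : ℂ)⁻¹ * ∑ᶠ x, f x * g x⁻¹

/-- `f x⁻¹` is the complex conjugate of `f x`. -/
def Her {G : Type*} [Group G] (f : G → ℂ) : Prop := ∀ x, f x⁻¹ = star (f x)

/-- Characters. -/
def IsCh {G : Type*} [Group G] (φ : G → ℂ) : Prop :=
  ∃ (d : ℕ) (σ : Representation ℂ G (Fin d → ℂ)), σ.character = φ

/-- Characters of norm one. -/
def N1 {G : Type*} [Group G] (φ : G → ℂ) : Prop := IsCh φ ∧ ip φ φ = 1

/-- `φ` is the character of an irreducible representation which embeds in `ρ`. -/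
def Con {G V : Type*} [Group G] [AddCommGroup V] [Module ℂ V] (ρ : Representation ℂ G V)
    (φ : G → ℂ) : Prop :=
  ∃ (d : ℕ) (σ : Representation ℂ G (Fin d → ℂ)), σ.IsIrreducible ∧ σ.character = φ ∧
    ∃ f : (Fin d → ℂ) →ₗ[ℂ] V, Function.Injective f ∧ ∀ g v, f (σ g v) = ρ g (f v)

/-- All `r`-subgroups are cyclic. -/
def CycSyl (G : Type*) [Group G] (r : ℕ) : Prop := ∀ P : Subgroup G, IsPGroup r P → IsCyclic P

end Pool.Agent.CS26
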