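import Mathlib
import Pool.Agent.CS26.Defs

/-!
# An automorphism which moves only values on elements of large order (helper file for MP_79850a_al)

`FV86.inertia_ne` gives `s ≠ 1` in `inertia χ r`, `FV86.inertia_ext` extends it to an automorphism `T` of
`ℂ` which fixes the `|G|`-th roots of unity `z` with `¬ r ^ a ∣ orderOf z`. It moves some value of `χ`
since these generate `ℚ(χ)` (see the end of `FV86.orth_ne`). If `r ^ a` does not divide `orderOf x`, all
eigenvalues `z` of `ρ x` satisfy `orderOf z ∣ orderOf x` (`FV86.orderOf_dvd`) and are fixed by `T`, and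
`χ x` is their sum (`FV86.char_eq` is private: `Module.End.trace_eq_sum_roots_charpoly_of_splits`).
-/

set_option autoImplicit false

namespace Pool.Agent.CS26

open Pool.Agent.FV86

theorem exists_aut {G V : Type*} [Group G] [Finite G] [AddCommGroup V] [Module ℂ V]
    [FiniteDimensional ℂ V] (ρ : Representation ℂ G V) {r : ℕ}
    (hr : r ∈ (conductor ρ.character).primeFactors) :
    ∃ T : ℂ ≃+* ℂ, (∃ x, T (ρ.character x) ≠ ρ.character x) ∧
      ∀ x, T (ρ.character x) ≠ ρ.character x →
        r ^ (conductor ρ.character).factorization r ∣ orderOf x := by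
  obtain ⟨s, hs, hs1⟩ : ∃ s ∈ inertia ρ.character r, s ≠ 1 := by
    by_contra hno
    push Not at hno
    exact inertia_ne ρ hr ((Subgroup.eq_bot_iff_forall _).2 hno)
  obtain ⟨T, hT1, hT2⟩ := inertia_ext ρ hr s hs
  refine ⟨T, ?_, ?_⟩
  · by_contra hno
    push Not at hno
    apply hs1
    have hAlg : (s : valueField ρ.character →ₐ[ℚ] valueField ρ.character) =
        AlgHom.id ℚ (valueField ρ.character) := by
      refine IntermediateField.algHom_ext_of_eq_adjoin (F := ℚ)
        (S := valueField ρ.character) (s := Set.range ρ.character) rfl ?_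
      rintro x ⟨g, rfl⟩
      apply Subtype.ext
      have h1 := hT1 ⟨ρ.character g, mem_valueField _ g⟩
      have h2 := hno g
      exact h1.symm.trans h2
    ext z
    have := DFunLike.congr_fun hAlg z
    simpa using congrArg Subtype.val this
  · intro x hx
    by_contra hdvd
    apply hx
    have hchar : ρ.character x = (LinearMap.charpoly (ρ x)).roots.sum :=
      Module.End.trace_eq_sum_roots_charpoly_of_splits (IsAlgClosed.splits _)
    rw [hchar, map_multiset_sum, Multiset.map_congr rfl, Multiset.map_id']
    intro z hz
    have hev : Module.End.HasEigenvalue (ρ x) z := by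
      rw [Module.End.hasEigenvalue_iff_isRoot_charpoly]
      exact (Polynomial.mem_roots'.1 hz).2
    have h1 : orderOf z ∣ orderOf x := orderOf_dvd ρ x hev
    refine hT2 z ?_ fun h => hdvd (h.trans h1)
    exact orderOf_dvd_iff_pow_eq_one.1 (h1.trans (orderOf_dvd_natCard x))

end Pool.Agent.CS26
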