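import Mathlib
import Pool.Agent.CS26.Defs

/-!
# Every character is a sum of irreducible constituents (helper file for MP_79850a_al)

Induction on `finrank V`. If `V ≠ 0` there is an irreducible subrepresentation `W` (an atom of the
lattice `Subrepresentation ρ`, or a non-zero invariant subspace of least dimension) and by Maschke's
theorem (`MonoidAlgebra` semisimple, `Representation.IsSemisimpleRepresentation`, or
`ComplementedLattice (Subrepresentation ρ)`) an invariant complement `W'`; the trace is additive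
(`LinearMap.trace_eq_sum_trace_restrict` or a basis). Transport of `W` to `Fin d → ℂ` by a basis.
-/

set_option autoImplicit false

namespace Pool.Agent.CS26

open Pool.Agent.FV86

namespace DecAux

/-- An invariant subspace of least dimension. -/
theorem exists_min {G V : Type*} [Group G] [AddCommGroup V] [Module ℂ V]
    [FiniteDimensional ℂ V] [Nontrivial V] (ρ : Representation ℂ G V) :
    ∃ W : Subrepresentation ρ, W.toSubmodule ≠ ⊥ ∧ ∀ U : Subrepresentation ρ,
      U.toSubmodule ≠ ⊥ → Module.finrank ℂ W.toSubmodule ≤ Module.finrank ℂ U.toSubmodule := by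
  classical
  have hex : ∃ n, ∃ W : Subrepresentation ρ, W.toSubmodule ≠ ⊥ ∧
      Module.finrank ℂ W.toSubmodule = n :=
    ⟨_, ⟨⊤, fun g v _ => Submodule.mem_top⟩, top_ne_bot, rfl⟩
  obtain ⟨W, h1, h2⟩ := Nat.find_spec hex
  refine ⟨W, h1, fun U hU => ?_⟩
  rw [h2]
  exact Nat.find_min' hex ⟨U, hU, rfl⟩

/-- Transport to coordinates. -/
noncomputable def tr {G V W : Type*} [Group G] [AddCommGroup V] [Module ℂ V] [AddCommGroup W]
    [Module ℂ W] (ρ : Representation ℂ G V) (e : W ≃ₗ[ℂ] V) : Representation ℂ G W where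
  toFun g := (e.symm.toLinearMap.comp (ρ g)).comp e.toLinearMap
  map_one' := by
    ext w
    simp
  map_mul' g h := by
    ext w
    simp

theorem tr_apply {G V W : Type*} [Group G] [AddCommGroup V] [Module ℂ V] [AddCommGroup W]
    [Module ℂ W] (ρ : Representation ℂ G V) (e : W ≃ₗ[ℂ] V) (g : G) (w : W) :
    tr ρ e g w = e.symm (ρ g (e w)) := rfl

theorem tr_char {G V W : Type*} [Group G] [AddCommGroup V] [Module ℂ V] [AddCommGroup W]
    [Module ℂ W] (ρ : Representation ℂ G V) (e : W ≃ₗ[ℂ] V) :
    (tr ρ e).character = ρ.character := by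
  funext g
  show LinearMap.trace ℂ W (tr ρ e g) = LinearMap.trace ℂ V (ρ g)
  have h : tr ρ e g = e.symm.conj (ρ g) := by
    ext w
    rfl
  rw [h, LinearMap.trace_conj']

theorem con_of_min {G V : Type*} [Group G] [AddCommGroup V] [Module ℂ V]
    [FiniteDimensional ℂ V] (ρ : Representation ℂ G V) (W : Subrepresentation ρ)
    (h1 : W.toSubmodule ≠ ⊥) (h2 : ∀ U : Subrepresentation ρ,
      U.toSubmodule ≠ ⊥ → Module.finrank ℂ W.toSubmodule ≤ Module.finrank ℂ U.toSubmodule) :
    Con ρ W.toRepresentation.character := by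
  classical
  set d := Module.finrank ℂ W.toSubmodule with hd
  let e : (Fin d → ℂ) ≃ₗ[ℂ] W.toSubmodule := (Module.finBasis ℂ W.toSubmodule).equivFun.symm
  let σ : Representation ℂ G (Fin d → ℂ) := tr W.toRepresentation e
  let f : (Fin d → ℂ) →ₗ[ℂ] V := W.toSubmodule.subtype.comp e.toLinearMap
  have hf : Function.Injective f := by
    intro x y hxy
    exact e.injective (Subtype.ext hxy)
  have hfg : ∀ g v, f (σ g v) = ρ g (f v) := by
    intro g v
    show ((e (e.symm (W.toRepresentation g (e v))) : W.toSubmodule) : V) = ρ g (e v : W.toSubmodule)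
    rw [LinearEquiv.apply_symm_apply]
    rfl
  have hdpos : 0 < d := by
    rw [hd]
    exact Module.finrank_pos_iff.mpr ((Submodule.nontrivial_iff_ne_bot).mpr h1)
  refine ⟨d, σ, ?_, tr_char _ _, f, hf, hfg⟩
  -- irreducible
  have hnt : Nontrivial (Subrepresentation σ) := by
    refine ⟨⊥, ⊤, fun h => ?_⟩
    have h3 : (⊥ : Submodule ℂ (Fin d → ℂ)) = ⊤ := congrArg Subrepresentation.toSubmodule h
    have h4 := congrArg (fun S : Submodule ℂ (Fin d → ℂ) => Module.finrank ℂ S) h3
    simp at h4
    omega
  refine ⟨fun U => ?_⟩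
  by_cases hU : U.toSubmodule = ⊥
  · left
    exact Subrepresentation.toSubmodule_injective hU
  · right
    apply Subrepresentation.toSubmodule_injective
    let U' : Subrepresentation ρ := ⟨U.toSubmodule.map f, by
      rintro g _ ⟨u, hu, rfl⟩
      exact ⟨σ g u, U.apply_mem_toSubmodule g hu, hfg g u⟩⟩
    have hU' : U'.toSubmodule ≠ ⊥ := by
      intro h
      apply hU
      rw [Submodule.eq_bot_iff] at h ⊢
      intro x hx
      have := h (f x) ⟨x, hx, rfl⟩
      exact hf (by rw [this, map_zero])
    have h3 := h2 U' hU'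
    have h4 : Module.finrank ℂ U'.toSubmodule = Module.finrank ℂ U.toSubmodule :=
      (Submodule.equivMapOfInjective f hf U.toSubmodule).finrank_eq.symm
    have h5 : Module.finrank ℂ (Fin d → ℂ) = d := by simp
    show U.toSubmodule = ⊤
    refine Submodule.eq_top_of_finrank_eq ?_
    have h6 := Submodule.finrank_le U.toSubmodule
    omega

theorem char_add {G V : Type*} [Group G] [AddCommGroup V] [Module ℂ V]
    [FiniteDimensional ℂ V] (ρ : Representation ℂ G V) (W W' : Subrepresentation ρ)
    (h : IsCompl W.toSubmodule W'.toSubmodule) :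
    ρ.character = W.toRepresentation.character + W'.toRepresentation.character := by
  funext g
  show LinearMap.trace ℂ V (ρ g) = LinearMap.trace ℂ _ (W.toRepresentation g) +
    LinearMap.trace ℂ _ (W'.toRepresentation g)
  rw [← LinearMap.trace_prodMap', ← LinearMap.trace_conj' _
    (Submodule.prodEquivOfIsCompl W.toSubmodule W'.toSubmodule h)]
  congr 1
  ext v
  set E := Submodule.prodEquivOfIsCompl W.toSubmodule W'.toSubmodule h with hE
  obtain ⟨⟨a, b⟩, rfl⟩ := E.surjective v
  show ρ g (E (a, b)) = E ((W.toRepresentation g).prodMap (W'.toRepresentation g)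
    (E.symm (E (a, b))))
  rw [LinearEquiv.symm_apply_apply, LinearMap.prodMap_apply, hE,
    Submodule.coe_prodEquivOfIsCompl', Submodule.coe_prodEquivOfIsCompl', map_add]
  rfl

theorem exists_compl {G V : Type*} [Group G] [Finite G] [AddCommGroup V] [Module ℂ V]
    (ρ : Representation ℂ G V) (W : Subrepresentation ρ) :
    ∃ W' : Subrepresentation ρ, IsCompl W.toSubmodule W'.toSubmodule := by
  classical
  have : Fintype G := Fintype.ofFinite G
  have : NeZero (Nat.card G : ℂ) := ⟨by exact_mod_cast Nat.card_pos.ne'⟩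
  obtain ⟨N, hN⟩ := MonoidAlgebra.Submodule.exists_isCompl (k := ℂ) (G := G)
    (V := ρ.asModule) (Subrepresentation.asSubmodule W)
  have h1 := (Subrepresentation.subrepresentationSubmoduleOrderIso (ρ := ρ)).symm.isCompl hN
  have h2 : IsCompl W (Subrepresentation.ofSubmodule' N) := h1
  refine ⟨Subrepresentation.ofSubmodule' N, ?_, ?_⟩
  · rw [disjoint_iff]
    exact congrArg Subrepresentation.toSubmodule (disjoint_iff.mp h2.disjoint)
  · rw [codisjoint_iff]
    exact congrArg Subrepresentation.toSubmodule (codisjoint_iff.mp h2.codisjoint)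

theorem decomp_aux (n : ℕ) : ∀ {G V : Type*} [Group G] [Finite G] [AddCommGroup V] [Module ℂ V]
    [FiniteDimensional ℂ V] (ρ : Representation ℂ G V), Module.finrank ℂ V = n →
    ∃ (k : ℕ) (φ : Fin k → G → ℂ), (∀ i, Con ρ (φ i)) ∧ ρ.character = ∑ i, φ i := by
  induction n using Nat.strong_induction_on with
  | _ n ih =>
  intro G V _ _ _ _ _ ρ hn
  rcases subsingleton_or_nontrivial V with hV | hV
  · refine ⟨0, fun i => i.elim0, fun i => i.elim0, ?_⟩
    funext g
    have h1 : ρ g = 0 := by
      ext v
      exact Subsingleton.elim _ _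
    show LinearMap.trace ℂ V (ρ g) = _
    rw [h1, map_zero]
    simp
  · obtain ⟨W, h1, h2⟩ := exists_min ρ
    obtain ⟨W', hW'⟩ := exists_compl ρ W
    have hc := con_of_min ρ W h1 h2
    have hlt : Module.finrank ℂ W'.toSubmodule < n := by
      have h3 := Submodule.finrank_add_eq_of_isCompl hW'
      have h4 : 0 < Module.finrank ℂ W.toSubmodule :=
        Module.finrank_pos_iff.mpr ((Submodule.nontrivial_iff_ne_bot).mpr h1)
      omega
    obtain ⟨k, φ, hφ, hsum⟩ := ih _ hlt W'.toRepresentation rfl
    refine ⟨k + 1, Fin.cons W.toRepresentation.character φ, ?_, ?_⟩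
    · intro i
      refine Fin.cases ?_ (fun i => ?_) i
      · exact hc
      · rw [Fin.cons_succ]
        obtain ⟨d, σ, hσ, hch, f, hf, hfg⟩ := hφ i
        refine ⟨d, σ, hσ, hch, W'.toSubmodule.subtype.comp f, ?_, ?_⟩
        · intro x y hxy
          exact hf (Subtype.ext hxy)
        · intro g v
          show ((f (σ g v) : W'.toSubmodule) : V) = ρ g (f v : W'.toSubmodule)
          rw [hfg]
          rfl
    · rw [char_add ρ W W' hW', hsum, Fin.sum_univ_succ]
      simp

end DecAux

theorem exists_decomp {G V : Type*} [Group G] [Finite G] [AddCommGroup V] [Module ℂ V]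
    [FiniteDimensional ℂ V] (ρ : Representation ℂ G V) :
    ∃ (k : ℕ) (φ : Fin k → G → ℂ), (∀ i, Con ρ (φ i)) ∧ ρ.character = ∑ i, φ i :=
  DecAux.decomp_aux _ ρ rfl

/-- A non-zero representation has an irreducible constituent. -/
theorem exists_con {G V : Type*} [Group G] [Finite G] [AddCommGroup V] [Module ℂ V]
    [FiniteDimensional ℂ V] [Nontrivial V] (ρ : Representation ℂ G V) : ∃ φ, Con ρ φ := by
  obtain ⟨W, h1, h2⟩ := DecAux.exists_min ρ
  exact ⟨_, DecAux.con_of_min ρ W h1 h2⟩

end Pool.Agent.CS26
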