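import Mathlib
import Pool.Agent.CS26.Defs

/-!
# Quotients and subgroups (helper file for MP_79850a_al)

`exists_quot`: a representation as a faithful representation of `G ⧸ ρ.ker`.
`cycSyl_quot`, `cycSyl_sub`: the condition `CycSyl` passes to quotients and subgroups.
-/

set_option autoImplicit false

namespace Pool.Agent.CS26

open Pool.Agent.FV86

theorem exists_quot {G V : Type*} [Group G] [Finite G] [AddCommGroup V] [Module ℂ V]
    [FiniteDimensional ℂ V] (ρ : Representation ℂ G V) [ρ.IsIrreducible] :
    ∃ ρ' : Representation ℂ (G ⧸ ρ.ker) V, ρ'.IsIrreducible ∧ Function.Injective ρ' ∧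
      (∀ g : G, ρ' (g : G ⧸ ρ.ker) = ρ g) ∧
      valueField ρ'.character = valueField ρ.character ∧
      conductor ρ'.character = conductor ρ.character := by
  classical
  let ρ' : Representation ℂ (G ⧸ ρ.ker) V := QuotientGroup.lift ρ.ker ρ (fun g hg => hg)
  have hval : ∀ g : G, ρ' (g : G ⧸ ρ.ker) = ρ g := fun g => rfl
  have hinj : Function.Injective ρ' := by
    intro a b hab
    obtain ⟨x, rfl⟩ := QuotientGroup.mk_surjective a
    obtain ⟨y, rfl⟩ := QuotientGroup.mk_surjective b
    have h1 : ρ x = ρ y := hab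
    rw [QuotientGroup.eq, MonoidHom.mem_ker, map_mul, ← h1, ← map_mul, inv_mul_cancel, map_one]
  have hirr : ρ'.IsIrreducible := by
    let e : Subrepresentation ρ' ≃o Subrepresentation ρ :=
      { toFun := fun W => ⟨W.toSubmodule, fun g v hv => W.apply_mem_toSubmodule (g : G ⧸ ρ.ker) hv⟩
        invFun := fun W => ⟨W.toSubmodule, fun g v hv => by
          obtain ⟨x, rfl⟩ := QuotientGroup.mk_surjective g
          exact W.apply_mem_toSubmodule x hv⟩
        left_inv := fun W => rfl
        right_inv := fun W => rfl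
        map_rel_iff' := Iff.rfl }
    exact e.isSimpleOrder
  have hchar : ∀ g : G, ρ'.character (g : G ⧸ ρ.ker) = ρ.character g := fun g => by
    show LinearMap.trace ℂ V (ρ' (g : G ⧸ ρ.ker)) = LinearMap.trace ℂ V (ρ g)
    rw [hval]
  have hrange : Set.range ρ'.character = Set.range ρ.character := by
    apply Set.Subset.antisymm
    · rintro _ ⟨q, rfl⟩
      obtain ⟨g, rfl⟩ := QuotientGroup.mk_surjective q
      exact ⟨g, (hchar g).symm⟩
    · rintro _ ⟨g, rfl⟩
      exact ⟨(g : G ⧸ ρ.ker), hchar g⟩
  have hvf : valueField ρ'.character = valueField ρ.character := by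
    unfold valueField
    rw [hrange]
  refine ⟨ρ', hirr, hinj, hval, hvf, ?_⟩
  unfold FV86.conductor
  rw [hvf]

theorem cycSyl_sub {G : Type*} [Group G] {r : ℕ} (h : CycSyl G r) (H : Subgroup G) :
    CycSyl H r := by
  intro P hP
  have h1 : IsPGroup r (P.map H.subtype) := hP.map H.subtype
  have h2 : IsCyclic (P.map H.subtype) := h _ h1
  exact isCyclic_of_injective (P.equivMapOfInjective H.subtype H.subtype_injective).toMonoidHom
    (P.equivMapOfInjective H.subtype H.subtype_injective).injective

/-- In terms of Sylow subgroups. -/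
theorem cycSyl_iff {G : Type*} [Group G] [Finite G] {r : ℕ} (hr : r.Prime) :
    CycSyl G r ↔ ¬ NoncyclicSylow G r := by
  have := Fact.mk hr
  constructor
  · rintro h ⟨P, hP⟩
    exact hP (h P P.isPGroup')
  · intro h P hP
    obtain ⟨Q, hQ⟩ := hP.exists_le_sylow
    have hc : IsCyclic Q := by
      by_contra hc
      exact h ⟨Q, hc⟩
    exact isCyclic_of_injective (Subgroup.inclusion hQ) (Subgroup.inclusion_injective hQ)

theorem cycSyl_quot {G : Type*} [Group G] [Finite G] {r : ℕ} (hr : r.Prime) (h : CycSyl G r)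
    (N : Subgroup G) [N.Normal] : CycSyl (G ⧸ N) r := by
  have := Fact.mk hr
  rw [cycSyl_iff hr]
  rintro ⟨P, hP⟩
  obtain ⟨Q, hQ⟩ := Sylow.mapSurjective_surjective (QuotientGroup.mk'_surjective N) r P
  apply hP
  have h1 : IsCyclic Q := h Q Q.isPGroup'
  rw [← hQ]
  rw [Sylow.coe_mapSurjective]
  exact isCyclic_of_surjective ((QuotientGroup.mk' N).subgroupMap (Q : Subgroup G))
    ((QuotientGroup.mk' N).subgroupMap_surjective (Q : Subgroup G))

end Pool.Agent.CS26
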