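import Mathlib
import Pool.Agent.CS26.Defs

/-!
# The criterion relative to a subfield (helper file for MP_79850a_al)

Generalisation of `FV86.core_dvd` from `K = ℚ(χ)` to a subfield `K ≤ ℚ(χ)`; `d` is a unitary divisor of
the conductor `n` of `K`. PROOF: as `FV86.core_dvd`, with the `Setup` on the group
`A = Gal(ℚ(χ)/ℚ)`, the homomorphism `ψ ∘ (restriction to K)` and the subgroups
`S p = {s ∈ A | some automorphism T of ℂ extends s and fixes all z with z ^ |G| = 1 and ¬ p ^ v_p(n) ∣ orderOf z}`.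
The restriction of `S p` to `K` contains `fixer K (cyc (n / p))`: the proof of `FV86.inertia_ext` for
`s ∈ fixer K (cyc (n / p))` and `K ≤ cyc |G|` gives `T`, and `T` restricts to `ℚ(χ)` (normal over `ℚ`).
So `ψ` is non-trivial on `S p`, or `ℓ ∣ |S p|` (a subgroup of a quotient).
-/

set_option autoImplicit false

namespace Pool.Agent.CS26

open Pool.Agent.FV86

/-- The conductor of a field; `conductor χ = condF (valueField χ)` by definition. -/
noncomputable def condF (K : IntermediateField ℚ ℂ) : ℕ := sInf {n : ℕ | 0 < n ∧ K ≤ cyc n}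

private theorem condF_spec {K : IntermediateField ℚ ℂ} {N : ℕ} (hN : 0 < N) (hK : K ≤ cyc N) :
    0 < condF K ∧ K ≤ cyc (condF K) :=
  Nat.sInf_mem (s := {n : ℕ | 0 < n ∧ K ≤ cyc n}) ⟨N, hN, hK⟩

private theorem condF_dvd {K : IntermediateField ℚ ℂ} {N : ℕ} (hN : 0 < N) (hK : K ≤ cyc N) :
    condF K ∣ N := by
  obtain ⟨hc, hle⟩ := condF_spec hN hK
  have h1 : K ≤ cyc ((condF K).gcd N) := by
    rw [← cyc_inf hc hN]
    exact le_inf hle hK
  have h2 : condF K ≤ (condF K).gcd N := Nat.sInf_le ⟨Nat.gcd_pos_of_pos_left _ hc, h1⟩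
  have h3 : (condF K).gcd N = condF K := le_antisymm (Nat.gcd_le_left _ hc) h2
  rw [← h3]
  exact Nat.gcd_dvd_right _ _

private theorem dvd_div_of_dvd {c N p d : ℕ} (hp : p.Prime) (hc : 0 < c) (hN : N ≠ 0)
    (hpc : p ∣ c) (hd : d ∣ c)
    (hdM : d ∣ N / p ^ N.factorization p * p ^ (c.factorization p - 1)) : d ∣ c / p := by
  obtain ⟨k, hk⟩ := hd
  have hr : 1 ≤ c.factorization p := (hp.dvd_iff_one_le_factorization hc.ne').mp hpc
  have hpk : p ∣ k := by
    by_contra hpk
    have h1 : p ^ c.factorization p ∣ d * k := hk ▸ Nat.ordProj_dvd c p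
    have h2 : Nat.Coprime (p ^ c.factorization p) k :=
      Nat.Coprime.pow_left _ ((Nat.Prime.coprime_iff_not_dvd hp).mpr hpk)
    have h3 : p ^ c.factorization p ∣ d := h2.dvd_of_dvd_mul_right h1
    have h4 := h3.trans hdM
    have h5 : Nat.Coprime (p ^ c.factorization p) (N / p ^ N.factorization p) :=
      Nat.Coprime.pow_left _ (Nat.coprime_ordCompl hp hN)
    have h6 : p ^ c.factorization p ∣ p ^ (c.factorization p - 1) := h5.dvd_of_dvd_mul_left h4
    have h7 := (Nat.pow_dvd_pow_iff_le_right hp.one_lt).mp h6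
    omega
  obtain ⟨m, rfl⟩ := hpk
  refine ⟨m, ?_⟩
  rw [hk]
  have : d * (p * m) = p * (d * m) := by ring
  rw [this, Nat.mul_div_cancel_left _ hp.pos]

private theorem order_dvd {o N p r : ℕ} (hN : N ≠ 0) (ho : o ∣ N)
    (hpo : ¬ p ^ r ∣ o) : o ∣ N / p ^ N.factorization p * p ^ (r - 1) := by
  have ho0 : o ≠ 0 := fun h => hN (by rw [h] at ho; exact Nat.eq_zero_of_zero_dvd ho)
  have h1 : o.factorization p ≤ r - 1 := by
    by_contra h
    have h2 : r ≤ o.factorization p := by omega
    exact hpo ((pow_dvd_pow p h2).trans (Nat.ordProj_dvd o p))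
  have h2 : o / p ^ o.factorization p ∣ N / p ^ N.factorization p :=
    Nat.ordCompl_dvd_ordCompl_of_dvd ho p
  have h3 := mul_dvd_mul h2 (pow_dvd_pow p h1)
  have h4 : o / p ^ o.factorization p * p ^ o.factorization p = o :=
    Nat.div_mul_cancel (Nat.ordProj_dvd o p)
  rwa [h4] at h3

private theorem level_dvd {c N p : ℕ} (hN : N ≠ 0) (hcN : c ∣ N) :
    N / p ^ N.factorization p * p ^ (c.factorization p - 1) ∣ N := by
  have hc0 : c ≠ 0 := fun h => hN (by rw [h] at hcN; exact Nat.eq_zero_of_zero_dvd hcN)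
  have h1 : c.factorization p ≤ N.factorization p :=
    (Nat.factorization_le_iff_dvd hc0 hN).mpr hcN p
  have h2 : N / p ^ N.factorization p * p ^ N.factorization p = N :=
    Nat.div_mul_cancel (Nat.ordProj_dvd N p)
  have h3 := mul_dvd_mul (dvd_refl (N / p ^ N.factorization p))
    (pow_dvd_pow p ((Nat.sub_le (c.factorization p) 1).trans h1))
  rwa [h2] at h3

/-- An automorphism of `K` which is trivial on `K ∩ cyc (c / p)` extends to an automorphism of `ℂ`
which fixes all roots of unity of order a divisor of `N` and not a multiple of `p ^ v_p(c)`. -/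
private theorem fixer_ext {K : IntermediateField ℚ ℂ} {N : ℕ} (hN : 0 < N) (hK : K ≤ cyc N)
    {p : ℕ} (hpp : p.Prime) (hpc : p ∣ condF K) (σ : K ≃ₐ[ℚ] K)
    (hσ : σ ∈ fixer K (cyc (condF K / p))) :
    ∃ T : ℂ ≃+* ℂ, (∀ x : K, T (x : ℂ) = ((σ x : K) : ℂ)) ∧
      ∀ z : ℂ, z ^ N = 1 → ¬ p ^ (condF K).factorization p ∣ orderOf z → T z = z := by
  obtain ⟨hc, hle⟩ := condF_spec hN hK
  have hcN := condF_dvd hN hK
  have hσ0 : ∀ x : K, (x : ℂ) ∈ cyc (condF K / p) → σ x = x := fun x hx =>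
    (IntermediateField.mem_fixingSubgroup_iff _ _).1 hσ x hx
  set c := condF K with hcdef
  have hMN : N / p ^ N.factorization p * p ^ (c.factorization p - 1) ∣ N :=
    level_dvd hN.ne' hcN
  set M := N / p ^ N.factorization p * p ^ (c.factorization p - 1) with hMdef
  have hM : 0 < M := Nat.pos_of_dvd_of_pos hMN hN
  have hcp : 0 < c / p := Nat.div_pos (Nat.le_of_dvd hc hpc) hpp.pos
  have hσ' : ∀ x : K, (x : ℂ) ∈ cyc M → σ x = x := by
    intro x hx
    apply hσ0 x
    have h1 : (x : ℂ) ∈ cyc (c.gcd M) := by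
      rw [← cyc_inf hc hM]
      exact ⟨hle x.2, hx⟩
    exact cyc_mono hcp (dvd_div_of_dvd hpp hc hN.ne' hpc (Nat.gcd_dvd_left _ _)
      (Nat.gcd_dvd_right _ _)) h1
  obtain ⟨τ, h1, h2⟩ := exists_ext_fix hN hMN hK σ hσ'
  obtain ⟨T, hT⟩ := exists_ext (cyc N) τ
  refine ⟨T, ?_, ?_⟩
  · intro x
    rw [← h1 x, ← hT]
  · intro z hz hpz
    have h3 : z ^ M = 1 :=
      orderOf_dvd_iff_pow_eq_one.mp (order_dvd hN.ne' (orderOf_dvd_of_pow_eq_one hz) hpz)
    have h4 : z ∈ cyc M := mem_cyc hM h3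
    have h5 : z ∈ cyc N := cyc_mono hN hMN h4
    have h6 := hT ⟨z, h5⟩
    rw [h2 ⟨z, h5⟩ h4] at h6
    exact h6

/-- The restriction of an automorphism of `ℂ` to a Galois extension. -/
private theorem exists_restrict (F : IntermediateField ℚ ℂ) [Normal ℚ F] (T : ℂ ≃+* ℂ) :
    ∃ s : F ≃ₐ[ℚ] F, ∀ x : F, T (x : ℂ) = ((s x : F) : ℂ) := by
  let T' : ℂ ≃ₐ[ℚ] ℂ := AlgEquiv.ofRingEquiv (f := T) (fun q => by simp)
  refine ⟨T'.restrictNormal F, fun x => ?_⟩
  exact (AlgEquiv.restrictNormal_commutes T' F x).symm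

/-- The subgroup `S p`. -/
private def Sp (F : IntermediateField ℚ ℂ) (N : ℕ) (m : ℕ) : Subgroup (F ≃ₐ[ℚ] F) where
  carrier := {s | ∃ T : ℂ ≃+* ℂ, (∀ x : F, T (x : ℂ) = ((s x : F) : ℂ)) ∧
    ∀ z : ℂ, z ^ N = 1 → ¬ m ∣ orderOf z → T z = z}
  mul_mem' := by
    rintro a b ⟨T, h1, h2⟩ ⟨U, h3, h4⟩
    refine ⟨U.trans T, fun x => ?_, fun z hz hm => ?_⟩
    · show T (U x) = ((a (b x) : F) : ℂ)
      rw [h3, h1]
    · show T (U z) = z
      rw [h4 z hz hm, h2 z hz hm]
  one_mem' := ⟨RingEquiv.refl ℂ, fun _ => rfl, fun _ _ _ => rfl⟩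
  inv_mem' := by
    rintro a ⟨T, h1, h2⟩
    refine ⟨T.symm, fun x => ?_, fun z hz hm => ?_⟩
    · rw [RingEquiv.symm_apply_eq, h1]
      have : a (a⁻¹ x) = x := by
        have h : (a * a⁻¹) x = x := by rw [mul_inv_cancel]; rfl
        exact h
      rw [this]
    · rw [RingEquiv.symm_apply_eq, h2 z hz hm]

/-- Restriction to a smaller Galois extension. -/
private theorem exists_resHom {K F : IntermediateField ℚ ℂ} (hK : K ≤ F) [Normal ℚ K] :
    ∃ R : (F ≃ₐ[ℚ] F) →* (K ≃ₐ[ℚ] K), ∀ (a : F ≃ₐ[ℚ] F) (x : K),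
      ((R a x : K) : ℂ) = ((a ⟨x, hK x.2⟩ : F) : ℂ) := by
  letI : Algebra K F := (IntermediateField.inclusion hK).toRingHom.toAlgebra
  haveI : IsScalarTower ℚ K F := IsScalarTower.of_algebraMap_eq fun q => by
    exact ((IntermediateField.inclusion hK).commutes q).symm
  refine ⟨AlgEquiv.restrictNormalHom K, fun a x => ?_⟩
  have h := AlgEquiv.restrictNormal_commutes a K x
  have h2 := congrArg (fun y : F => (y : ℂ)) h
  exact h2

theorem core_rel {G V : Type*} [Group G] [Finite G] [AddCommGroup V] [Module ℂ V]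
    [FiniteDimensional ℂ V] (ρ : Representation ℂ G V) [ρ.IsIrreducible] {ℓ : ℕ} (hℓ : ℓ.Prime)
    (K : IntermediateField ℚ ℂ) (hK : K ≤ valueField ρ.character) {d : ℕ} (hd : d ∣ condF K)
    (hcop : d.Coprime (condF K / d)) (ψ : (K ≃ₐ[ℚ] K) →* ℂˣ)
    (hψ : ∀ p ∈ d.primeFactors, (∃ s ∈ fixer K (cyc (condF K / p)), ψ s ≠ 1) ∨
      ℓ ∣ Nat.card (fixer K (cyc (condF K / p)))) :
    ∃ g z, Module.End.HasEigenvalue (ρ g) z ∧ d ∣ orderOf z := by
  classical
  have hKN : K ≤ cyc (Nat.card G) := hK.trans (valueField_le ρ)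
  have hc0 : 0 < condF K := (condF_spec Nat.card_pos hKN).1
  have hd0 : 0 < d := Nat.pos_of_dvd_of_pos hd hc0
  have hfact : ∀ p ∈ d.primeFactors, d.factorization p = (condF K).factorization p := by
    intro p hp
    have h1 : condF K = d * (condF K / d) := (Nat.mul_div_cancel' hd).symm
    have h2 : (condF K / d).factorization p = 0 := by
      apply Nat.factorization_eq_zero_of_not_dvd
      intro h3
      exact (Nat.prime_of_mem_primeFactors hp).one_lt.ne'
        (Nat.eq_one_of_dvd_coprimes hcop (Nat.dvd_of_mem_primeFactors hp) h3)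
    have h4 : condF K / d ≠ 0 := by
      intro h5
      rw [h5, mul_zero] at h1
      exact hc0.ne' h1
    conv_rhs => rw [h1]
    rw [Nat.factorization_mul hd0.ne' h4, Finsupp.add_apply, h2, add_zero]
  by_contra hno
  push Not at hno
  haveI : Fintype G := Fintype.ofFinite G
  haveI : FiniteDimensional ℚ (valueField ρ.character) :=
    finiteDimensional_of_le Nat.card_pos (valueField_le ρ)
  haveI : IsGalois ℚ (valueField ρ.character) := isGalois_of_le Nat.card_pos (valueField_le ρ)
  haveI : FiniteDimensional ℚ K := finiteDimensional_of_le Nat.card_pos hKN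
  haveI : IsGalois ℚ K := isGalois_of_le Nat.card_pos hKN
  haveI : Fintype (valueField ρ.character ≃ₐ[ℚ] valueField ρ.character) := Fintype.ofFinite _
  obtain ⟨R, hR⟩ := exists_resHom hK
  -- the elements of the fixer come from `S p`
  have hfix : ∀ p ∈ d.primeFactors, fixer K (cyc (condF K / p)) ≤
      (Sp (valueField ρ.character) (Nat.card G) (p ^ d.factorization p)).map R := by
    intro p hp s hs
    have hpp := Nat.prime_of_mem_primeFactors hp
    obtain ⟨T, hT1, hT2⟩ := fixer_ext Nat.card_pos hKN hpp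
      ((Nat.dvd_of_mem_primeFactors hp).trans hd) s hs
    obtain ⟨a, ha⟩ := exists_restrict (valueField ρ.character) T
    refine ⟨a, ⟨T, ha, fun z hz hm => hT2 z hz ?_⟩, ?_⟩
    · rw [← hfact p hp]
      exact hm
    · ext x
      rw [hR, ← ha, hT1]
  have hS : ∀ p ∈ d.primeFactors,
      (∃ s ∈ Sp (valueField ρ.character) (Nat.card G) (p ^ d.factorization p),
        (ψ.comp R) s ≠ 1) ∨
      ℓ ∣ Nat.card (Sp (valueField ρ.character) (Nat.card G) (p ^ d.factorization p)) := by
    intro p hp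
    rcases hψ p hp with ⟨s, hs, hs1⟩ | h
    · obtain ⟨a, ha, rfl⟩ := hfix p hp hs
      exact Or.inl ⟨a, ha, hs1⟩
    · right
      have h1 := Subgroup.card_dvd_of_le (hfix p hp)
      have h2 : Nat.card ((Sp (valueField ρ.character) (Nat.card G)
          (p ^ d.factorization p)).map R) ∣
          Nat.card (Sp (valueField ρ.character) (Nat.card G) (p ^ d.factorization p)) :=
        Subgroup.card_map_dvd _ _
      exact (h.trans h1).trans h2
  choose T hT using fun a : valueField ρ.character ≃ₐ[ℚ] valueField ρ.character =>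
    exists_ext (valueField ρ.character) a
  choose ρ' hchar heig using fun a : valueField ρ.character ≃ₐ[ℚ] valueField ρ.character =>
    exists_twist ρ (T a)
  have hchar' : ∀ a g, (ρ' a).character g = conj ρ.character a g := by
    intro a g
    rw [hchar a g]
    exact hT a ⟨ρ.character g, mem_valueField _ g⟩
  let D : Setup G (valueField ρ.character ≃ₐ[ℚ] valueField ρ.character) d ℓ :=
    { npos := hd0
      prime := hℓ
      ψ := ψ.comp R
      S := fun p => Sp (valueField ρ.character) (Nat.card G) (p ^ d.factorization p)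
      hS := hS
      χ := fun a g => conj ρ.character a g
      d := Module.finrank ℂ V
      ρ := ρ'
      char := hchar'
      noeig := by
        intro a g z hz
        have h1 := hno g _ (heig a g z hz)
        have h2 : orderOf ((T a).symm z) = orderOf z :=
          MulEquiv.orderOf_eq (T a).symm.toMulEquiv z
        rw [h2] at h1
        exact h1
      aut := by
        intro p hp s hs
        obtain ⟨T', hT1, hT2⟩ := hs
        exact ⟨T', fun a g => (hT1 _).symm, hT2⟩ }
  have hD : ∀ a g, D.χ a g = conj ρ.character a g := fun _ _ => rfl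
  have hF : ∀ g h, D.F (h * g * h⁻¹) = D.F g := by
    intro g h
    rw [Setup.F, Setup.F]
    refine Finset.sum_congr rfl fun a _ => ?_
    rw [← D.char, ← D.char, Representation.char_conj]
  let Φ : G → ℂ := fun g => D.F g * ρ.character g⁻¹
  have hconj : ∀ g h, Φ (h * g * h⁻¹) = Φ g := by
    intro g h
    change D.F (h * g * h⁻¹) * ρ.character (h * g * h⁻¹)⁻¹ = D.F g * ρ.character g⁻¹
    rw [hF, show (h * g * h⁻¹)⁻¹ = h * g⁻¹ * h⁻¹ by group, Representation.char_conj]
  have hcount := count hℓ Φ hconj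
    (fun x v r hxv hx hv => (alpha D hxv hx hv).mul_right (isIntegral_character ρ _))
    (by
      intro x P Ω _ _ _ hx hP
      have h := beta D ρ hP ((Subgroup.subtype _).comp P.subtype) (Ω := Ω) (x := x)
        (fun v => by
          have h1 := (v : Subgroup.centralizer ({x} : Set G)).2
          rw [Subgroup.mem_centralizer_iff] at h1
          exact h1 x rfl) hx
      exact h)
  have hsum : ((Nat.card G : ℂ)⁻¹ * ∑ g, Φ g) = 1 := by
    have e1 : ((Nat.card G : ℂ)⁻¹ * ∑ g, Φ g) =
        ∑ a, (((ψ.comp R a)⁻¹ : ℂˣ) : ℂ) *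
          ((Nat.card G : ℂ)⁻¹ * ∑ g, conj ρ.character a g * ρ.character g⁻¹) := by
      have e2 : ∀ g, Φ g = ∑ a, (((ψ.comp R a)⁻¹ : ℂˣ) : ℂ) *
          (conj ρ.character a g * ρ.character g⁻¹) := by
        intro g
        change D.F g * ρ.character g⁻¹ = _
        rw [Setup.F, Finset.sum_mul]
        exact Finset.sum_congr rfl fun a _ => mul_assoc _ _ _
      simp_rw [e2]
      rw [Finset.sum_comm, Finset.mul_sum]
      refine Finset.sum_congr rfl fun a _ => ?_
      rw [← Finset.mul_sum]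
      ring
    rw [e1, Finset.sum_eq_single 1]
    · rw [orth_one, map_one, inv_one, Units.val_one, mul_one]
    · intro a _ ha
      rw [orth_ne ρ a ha (ρ' a) (hchar' a), mul_zero]
    · intro h
      exact absurd (Finset.mem_univ _) h
  rw [hsum, mul_one] at hcount
  have hdvd := dvd_of_divBy hℓ.ne_zero hcount
  exact Nat.not_dvd_ordCompl hℓ Nat.card_pos.ne' hdvd

end Pool.Agent.CS26
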