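import Mathlib
import Pool.Agent.CS26.Defs
import Pool.Agent.FV86.CycInf
import Pool.Agent.FV86.Ext
import Pool.Agent.FV86.CharVals

/-!
# Galois theory of cyclotomic numbers (helper file for MP_79850a_al)

`aut_comm`: an automorphism of `ℂ` maps a primitive `N`-th root of unity to a power of it; the
elements on which `T τ = τ T` form a subfield. `le_of_fix`: inside `L = cyc N` (Galois over `ℚ`,
`FV86.isGalois_of_le`), an element of `K` outside `F` is moved by some `σ ∈ Gal(L/F)`, and `σ` extends to `ℂ`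
(`FV86.exists_ext`). `conductor_dvd_of_le`: `ℚ(χ) ≤ ℚ(ψ) ≤ cyc c(ψ)` and `ℚ(χ) ≤ cyc c(χ)`, so
`ℚ(χ) ≤ cyc (gcd)` (`FV86.cyc_inf`) and `c(χ) ≤ gcd` by minimality (`Nat.sInf_le`).
-/

set_option autoImplicit false

namespace Pool.Agent.CS26

open Pool.Agent.FV86

theorem aut_comm {N : ℕ} (hN : 0 < N) (T τ : ℂ ≃+* ℂ) {x : ℂ} (hx : x ∈ cyc N) :
    T (τ x) = τ (T x) := by
  have hζ := Complex.isPrimitiveRoot_exp N hN.ne'
  have : NeZero N := ⟨hN.ne'⟩
  have key : ∀ S : ℂ ≃+* ℂ, ∃ a : ℕ, S (Complex.exp (2 * Real.pi * Complex.I / N)) =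
      Complex.exp (2 * Real.pi * Complex.I / N) ^ a := by
    intro S
    obtain ⟨k, -, hk⟩ := hζ.eq_pow_of_pow_eq_one
      (ξ := S (Complex.exp (2 * Real.pi * Complex.I / N)))
      (by rw [← map_pow, hζ.pow_eq_one, map_one])
    exact ⟨k, hk.symm⟩
  obtain ⟨a, ha⟩ := key T
  obtain ⟨b, hb⟩ := key τ
  unfold cyc at hx
  induction hx using IntermediateField.adjoin_induction with
  | mem x hx =>
    rw [Set.mem_singleton_iff] at hx
    subst hx
    rw [hb, map_pow, ha, map_pow, hb, ← pow_mul, ← pow_mul, Nat.mul_comm a b]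
  | algebraMap x => simp
  | add x y _ _ hx hy => simp only [map_add, hx, hy]
  | inv x _ hx => simp only [map_inv₀, hx]
  | mul x y _ _ hx hy => simp only [map_mul, hx, hy]

/-- Automorphisms commute on values of characters. -/
theorem aut_comm_char {G : Type*} [Group G] [Finite G] {φ : G → ℂ} (h : IsCh φ) (T τ : ℂ ≃+* ℂ)
    (x : G) : T (τ (φ x)) = τ (T (φ x)) := by
  obtain ⟨d, σ, rfl⟩ := h
  exact aut_comm Nat.card_pos T τ (valueField_le σ (mem_valueField _ x))

theorem le_of_fix {N : ℕ} (hN : 0 < N) {K F : IntermediateField ℚ ℂ} (hK : K ≤ cyc N)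
    (hF : F ≤ cyc N) (h : ∀ τ : ℂ ≃+* ℂ, (∀ x ∈ F, τ x = x) → ∀ x ∈ K, τ x = x) : K ≤ F := by
  have hG : IsGalois ℚ (cyc N) := isGalois_of_le hN le_rfl
  have hfd : FiniteDimensional ℚ (cyc N) := finiteDimensional_of_le hN le_rfl
  intro x hx
  set F' : IntermediateField ℚ (cyc N) := IntermediateField.restrict hF with hF'
  have h1 : (⟨x, hK hx⟩ : cyc N) ∈ IntermediateField.fixedField F'.fixingSubgroup := by
    rw [IntermediateField.mem_fixedField_iff]
    intro σ hσ
    obtain ⟨T, hT⟩ := exists_ext (cyc N) σ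
    have h2 : ∀ y ∈ F, T y = y := by
      intro y hy
      have h3 := hT ⟨y, hF hy⟩
      have h6 : σ ⟨y, hF hy⟩ = ⟨y, hF hy⟩ :=
        (IntermediateField.mem_fixingSubgroup_iff _ _).1 hσ _
          ((IntermediateField.mem_restrict hF _).2 hy)
      exact h3.trans (congrArg Subtype.val h6)
    have h4 := h T h2 x hx
    have h5 := hT ⟨x, hK hx⟩
    exact Subtype.ext (h5.symm.trans h4)
  rw [IsGalois.fixedField_fixingSubgroup] at h1
  exact (IntermediateField.mem_restrict hF _).1 h1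

private theorem fix_adjoin {G : Type*} {φ : G → ℂ} (τ : ℂ ≃+* ℂ) (h : ∀ x, τ (φ x) = φ x) {y : ℂ}
    (hy : y ∈ valueField φ) : τ y = y := by
  unfold valueField at hy
  induction hy using IntermediateField.adjoin_induction with
  | mem x hx =>
    obtain ⟨g, rfl⟩ := hx
    exact h g
  | algebraMap x => simp
  | add x y _ _ hx hy => simp only [map_add, hx, hy]
  | inv x _ hx => simp only [map_inv₀, hx]
  | mul x y _ _ hx hy => simp only [map_mul, hx, hy]

/-- `ℚ(χ) ⊆ ℚ(φ)` if every automorphism which fixes the values of `φ` fixes those of `χ`. -/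
theorem valueField_le_of_fix {G H : Type*} [Group G] [Finite G] [Group H] [Finite H]
    {χ : G → ℂ} {φ : H → ℂ} (hχ : IsCh χ) (hφ : IsCh φ)
    (h : ∀ τ : ℂ ≃+* ℂ, (∀ x, τ (φ x) = φ x) → ∀ x, τ (χ x) = χ x) :
    valueField χ ≤ valueField φ := by
  obtain ⟨d, ρ, rfl⟩ := hχ
  obtain ⟨e, σ, rfl⟩ := hφ
  have hN : 0 < Nat.card G * Nat.card H := Nat.mul_pos Nat.card_pos Nat.card_pos
  refine le_of_fix hN ((valueField_le ρ).trans (cyc_mono hN (Dvd.intro _ rfl)))
    ((valueField_le σ).trans (cyc_mono hN (Dvd.intro_left _ rfl))) fun τ hτ x hx => ?_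
  exact fix_adjoin τ (h τ fun y => hτ _ (mem_valueField _ y)) hx

theorem conductor_dvd_of_le {G H : Type*} [Group G] [Finite G] [Group H] [Finite H]
    {χ : G → ℂ} {φ : H → ℂ} (hχ : IsCh χ) (hφ : IsCh φ) (h : valueField χ ≤ valueField φ) :
    conductor χ ∣ conductor φ := by
  obtain ⟨d, ρ, rfl⟩ := hχ
  obtain ⟨e, σ, rfl⟩ := hφ
  have hc := conductor_pos ρ
  have hc' := conductor_pos σ
  have h1 : valueField ρ.character ≤
      cyc ((conductor ρ.character).gcd (conductor σ.character)) := by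
    rw [← cyc_inf hc hc']
    exact le_inf (valueField_le_conductor ρ) (h.trans (valueField_le_conductor σ))
  have h2 : conductor ρ.character ≤ (conductor ρ.character).gcd (conductor σ.character) :=
    Nat.sInf_le ⟨Nat.gcd_pos_of_pos_left _ hc, h1⟩
  have h3 : (conductor ρ.character).gcd (conductor σ.character) = conductor ρ.character :=
    le_antisymm (Nat.gcd_le_left _ hc) h2
  rw [← h3]
  exact Nat.gcd_dvd_right _ _

end Pool.Agent.CS26
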