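import Mathlib
import Pool.Agent.CS26.Defs
import Pool.Agent.FV86.Fixed

/-!
# Subgroups of order `r ^ a` when all `r`-subgroups are cyclic (helper file for MP_79850a_al)

Let `x` have order divisible by `r ^ a`. `Q_x = zpowers (x ^ (orderOf x / r ^ a))` has order `r ^ a` and `x`
normalises it. If `x` normalises `Q` of order `r ^ a`, let `y` be a power of `x` which generates the
`r`-part of `zpowers x`; then `Q ⊔ zpowers y` is an `r`-group (`IsPGroup.to_sup_of_normal_left'` or
`IsPGroup.to_sup...`), hence cyclic, and a cyclic group has only one subgroup of order `r ^ a`, so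
`Q = Q_x`. Any two subgroups of order `r ^ a` are conjugate: they lie in Sylow subgroups, which are
conjugate and cyclic. So the cosets `c = y N` with `x • c = c`, `N = N_G(Q)`, are those with
`y Q y⁻¹ = Q_x`: exactly one, `FV86.fix (G ⧸ N) x = 1`. Then `FV86.sum_fix`.
-/

set_option autoImplicit false

namespace Pool.Agent.CS26

open Pool.Agent.FV86

variable {G : Type*} [Group G] [Finite G] {r : ℕ}

/-- A cyclic group has at most one subgroup of a given order. -/
private theorem ti_unique {C Q1 Q2 : Subgroup G} (hC : IsCyclic C) (h1 : Q1 ≤ C) (h2 : Q2 ≤ C)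
    (hcard : Nat.card Q1 = Nat.card Q2) : Q1 = Q2 := by
  classical
  have : Fintype C := Fintype.ofFinite C
  have hn : 0 < Nat.card Q1 := Nat.card_pos
  have key : ∀ Q : Subgroup G, Q ≤ C → Nat.card Q = Nat.card Q1 →
      (Finset.univ.filter fun a : C => (a : G) ∈ Q) = Finset.univ.filter fun a : C => a ^ (Nat.card Q1) = 1 := by
    intro Q hQ hc
    refine Finset.eq_of_subset_of_card_le ?_ ?_
    · intro a ha
      rw [Finset.mem_filter] at ha ⊢
      refine ⟨Finset.mem_univ _, ?_⟩
      apply Subtype.ext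
      have h3 : (⟨(a : G), ha.2⟩ : Q) ^ Nat.card Q = 1 := pow_card_eq_one'
      have h4 := congrArg (fun z : Q => (z : G)) h3
      rw [hc] at h4
      simpa using h4
    · refine (IsCyclic.card_pow_eq_one_le hn).trans ?_
      have h5 : Nat.card (Q.subgroupOf C) = Nat.card Q := Nat.card_congr (Subgroup.subgroupOfEquivOfLe hQ).toEquiv
      have h6 : (Finset.univ.filter fun a : C => (a : G) ∈ Q).card = Nat.card (Q.subgroupOf C) := by
        rw [Nat.card_eq_fintype_card, ← Fintype.card_subtype]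
        rfl
      rw [h6, h5, hc]
  have e := (key Q1 h1 rfl).trans (key Q2 h2 hcard.symm).symm
  ext g
  constructor
  · intro hg
    have := Finset.ext_iff.mp e ⟨g, h1 hg⟩
    simp only [Finset.mem_filter, Finset.mem_univ, true_and] at this
    exact this.mp hg
  · intro hg
    have := Finset.ext_iff.mp e ⟨g, h2 hg⟩
    simp only [Finset.mem_filter, Finset.mem_univ, true_and] at this
    exact this.mpr hg

private theorem ti_conj_mem {Q : Subgroup G} {y g : G} : g ∈ Q.map (MulAut.conj y).toMonoidHom ↔ y⁻¹ * g * y ∈ Q := by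
  rw [Subgroup.mem_map]
  constructor
  · rintro ⟨h, hh, rfl⟩
    have : y⁻¹ * ((MulAut.conj y).toMonoidHom h) * y = h := by
      show y⁻¹ * (y * h * y⁻¹) * y = h
      group
    rw [this]
    exact hh
  · intro h
    refine ⟨_, h, ?_⟩
    show y * (y⁻¹ * g * y) * y⁻¹ = g
    group

private theorem ti_card_map (Q : Subgroup G) (y : G) :
    Nat.card (Q.map (MulAut.conj y).toMonoidHom) = Nat.card Q :=
  Nat.card_congr (Q.equivMapOfInjective _ (MulAut.conj y).injective).symm.toEquiv

/-- Two subgroups of order `r ^ a` are conjugate. -/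
private theorem ti_conj (hr : r.Prime) (hc : CycSyl G r) {Q Q' : Subgroup G} {a : ℕ}
    (hQ : Nat.card Q = r ^ a) (hQ' : Nat.card Q' = r ^ a) :
    ∃ y : G, Q.map (MulAut.conj y).toMonoidHom = Q' := by
  have : Fact r.Prime := ⟨hr⟩
  obtain ⟨S, hS⟩ := (IsPGroup.of_card hQ).exists_le_sylow
  obtain ⟨S', hS'⟩ := (IsPGroup.of_card hQ').exists_le_sylow
  obtain ⟨y, hy⟩ := MulAction.exists_smul_eq G S S'
  refine ⟨y, ti_unique (C := (S' : Subgroup G)) (hc _ S'.isPGroup') ?_ hS' ?_⟩
  · intro g hg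
    have h1 := hS (ti_conj_mem.mp hg)
    rw [← hy]
    show g ∈ ((y • S : Sylow r G) : Subgroup G)
    rw [Sylow.coe_subgroup_smul, Subgroup.mem_pointwise_smul_iff_inv_smul_mem]
    have h2 : (MulAut.conj y)⁻¹ • g = y⁻¹ * g * y := by
      rw [← map_inv, MulAut.smul_def, MulAut.conj_apply, inv_inv]
    rw [h2]
    exact h1
  · rw [ti_card_map, hQ, hQ']

/-- The subgroup of order `r ^ a` which is normalised by `x`. -/
private theorem ti_eq (hr : r.Prime) (hc : CycSyl G r) (Q : Subgroup G) {a : ℕ}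
    (hQ : Nat.card Q = r ^ a) (x : G) (hx : r ^ a ∣ orderOf x)
    (hn : x ∈ Subgroup.normalizer (Q : Set G)) : Q = Subgroup.zpowers (x ^ (orderOf x / r ^ a)) := by
  have : Fact r.Prime := ⟨hr⟩
  have hx0 : orderOf x ≠ 0 := (orderOf_pos x).ne'
  obtain ⟨e, m, hm, hem⟩ := Nat.exists_eq_pow_mul_and_not_dvd hx0 r hr.ne_one
  have hae : a ≤ e := by
    rw [hem] at hx
    have h1 : (r ^ a).Coprime m := Nat.Coprime.pow_left a ((Nat.Prime.coprime_iff_not_dvd hr).mpr hm)
    exact (Nat.pow_dvd_pow_iff_le_right hr.one_lt).mp (h1.dvd_of_dvd_mul_right hx)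
  have hy : (x ^ m) ^ r ^ e = 1 := by
    rw [← pow_mul, mul_comm, ← hem, pow_orderOf_eq_one]
  have hpy : IsPGroup r (Subgroup.zpowers (x ^ m)) := by
    rintro ⟨g, hg⟩
    obtain ⟨k, rfl⟩ := Subgroup.mem_zpowers_iff.1 hg
    refine ⟨e, Subtype.ext ?_⟩
    change ((x ^ m) ^ k) ^ r ^ e = 1
    rw [← zpow_natCast, ← zpow_mul, mul_comm, zpow_mul, zpow_natCast, hy, one_zpow]
  have hxm : Subgroup.zpowers (x ^ m) ≤ Subgroup.normalizer (Q : Set G) := by
    rw [Subgroup.zpowers_le]
    exact Subgroup.pow_mem _ hn m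
  have hC := hc _ (IsPGroup.to_sup_of_normal_left' (IsPGroup.of_card hQ) hpy hxm)
  refine ti_unique hC le_sup_left (le_trans ?_ le_sup_right) ?_
  · rw [Subgroup.zpowers_le]
    have h2 : orderOf x / r ^ a = m * r ^ (e - a) := by
      rw [hem, show r ^ e = r ^ a * r ^ (e - a) by rw [← pow_add]; congr 1; omega,
        mul_assoc, Nat.mul_div_cancel_left _ (pow_pos hr.pos a), mul_comm]
    rw [h2, pow_mul]
    exact Subgroup.pow_mem _ (Subgroup.mem_zpowers _) _
  · rw [Nat.card_zpowers, orderOf_pow_orderOf_div hx0 hx, hQ]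

private theorem ti_self_norm (x : G) (k : ℕ) : x ∈ Subgroup.normalizer ((Subgroup.zpowers (x ^ k) : Subgroup G) : Set G) := by
  have h1 : x ∈ Subgroup.zpowers x := Subgroup.mem_zpowers x
  rw [Subgroup.mem_normalizer_iff]
  have h2 : ∀ h ∈ Subgroup.zpowers (x ^ k), x * h * x⁻¹ = h := by
    intro h hh
    obtain ⟨j, rfl⟩ := Subgroup.mem_zpowers_iff.1 hh
    have : Commute x ((x ^ k) ^ j) := ((Commute.refl x).pow_right k).zpow_right j
    rw [this.eq, mul_assoc, mul_inv_cancel, mul_one]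
  intro h
  constructor
  · intro hh
    rw [h2 h hh]
    exact hh
  · intro hh
    have h3 := h2 _ hh
    have h4 : x * h * x⁻¹ = h := by
      have h5 : x * (x * h * x⁻¹) * x⁻¹ = x * h * x⁻¹ := h3
      have h6 : x * h * x⁻¹ = h := by
        have h7 := congrArg (fun z => x⁻¹ * z * x) h5
        have h8 : x⁻¹ * (x * (x * h * x⁻¹) * x⁻¹) * x = x * h * x⁻¹ := by group
        have h9 : x⁻¹ * (x * h * x⁻¹) * x = h := by group
        rw [h8, h9] at h7
        exact h7
      exact h6
    rw [h4] at hh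
    exact hh

private theorem ti_norm_conj {Q Q' : Subgroup G} {y x : G} (h : Q.map (MulAut.conj y).toMonoidHom = Q')
    (hx : x ∈ Subgroup.normalizer (Q : Set G)) : y * x * y⁻¹ ∈ Subgroup.normalizer (Q' : Set G) := by
  rw [Subgroup.mem_normalizer_iff] at hx ⊢
  intro g
  rw [← h, ti_conj_mem, ti_conj_mem, hx]
  have : x * (y⁻¹ * g * y) * x⁻¹ = y⁻¹ * (y * x * y⁻¹ * g * (y * x * y⁻¹)⁻¹) * y := by group
  rw [this]

theorem exists_conj (hr : r.Prime) (hc : CycSyl G r) (Q : Subgroup G) {a : ℕ}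
    (hQ : Nat.card Q = r ^ a) (x : G) (hx : r ^ a ∣ orderOf x) :
    ∃ y : G, y * x * y⁻¹ ∈ Subgroup.normalizer (Q : Set G) := by
  have hx0 : orderOf x ≠ 0 := (orderOf_pos x).ne'
  have h1 : Nat.card (Subgroup.zpowers (x ^ (orderOf x / r ^ a))) = r ^ a := by
    rw [Nat.card_zpowers, orderOf_pow_orderOf_div hx0 hx]
  obtain ⟨y, hy⟩ := ti_conj hr hc h1 hQ
  exact ⟨y, ti_norm_conj hy (ti_self_norm x _)⟩

private theorem ti_smul_iff {N : Subgroup G} {x y : G} : x • ((y : G) : G ⧸ N) = (y : G ⧸ N) ↔ y⁻¹ * x * y ∈ N := by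
  have : x • (y : G ⧸ N) = ((x * y : G) : G ⧸ N) := rfl
  rw [this, eq_comm, QuotientGroup.eq, ← mul_assoc]

private theorem ti_map_norm {Q : Subgroup G} {z : G} (h : Q.map (MulAut.conj z).toMonoidHom = Q) :
    z ∈ Subgroup.normalizer (Q : Set G) := by
  rw [Subgroup.mem_normalizer_iff]
  intro g
  have h1 : z * g * z⁻¹ ∈ Q ↔ z * g * z⁻¹ ∈ Q.map (MulAut.conj z).toMonoidHom := by rw [h]
  rw [h1, ti_conj_mem]
  have : z⁻¹ * (z * g * z⁻¹) * z = g := by group
  rw [this]

theorem fix_one (hr : r.Prime) (hc : CycSyl G r) (Q : Subgroup G) {a : ℕ}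
    (hQ : Nat.card Q = r ^ a) (x : G) (hx : r ^ a ∣ orderOf x) :
    fix (G ⧸ Subgroup.normalizer (Q : Set G)) x = 1 := by
  obtain ⟨y, hy⟩ := exists_conj hr hc Q hQ x hx
  unfold fix
  rw [Nat.card_eq_one_iff_unique]
  refine ⟨⟨?_⟩, ?_⟩
  · rintro ⟨c, hcx⟩ ⟨d, hd⟩
    apply Subtype.ext
    show c = d
    have hcx' : x • c = c := hcx
    have hd' : x • d = d := hd
    clear hcx hd
    induction c using QuotientGroup.induction_on with
    | H u =>
      induction d using QuotientGroup.induction_on with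
      | H w =>
        rw [ti_smul_iff] at hcx' hd'
        -- the subgroups `u Q u⁻¹` and `w Q w⁻¹` are both equal to `Q_x`
        have key : ∀ v : G, v⁻¹ * x * v ∈ Subgroup.normalizer (Q : Set G) →
            Q.map (MulAut.conj v).toMonoidHom = Subgroup.zpowers (x ^ (orderOf x / r ^ a)) := by
          intro v hv
          have h2 : x ∈ Subgroup.normalizer ((Q.map (MulAut.conj v).toMonoidHom : Subgroup G) : Set G) := by
            have h3 := ti_norm_conj (Q := Q) (y := v) rfl hv
            have h4 : v * (v⁻¹ * x * v) * v⁻¹ = x := by group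
            rw [h4] at h3
            exact h3
          exact ti_eq hr hc _ (by rw [ti_card_map, hQ]) x hx h2
        have h5 := (key u hcx').trans (key w hd').symm
        rw [QuotientGroup.eq]
        apply ti_map_norm
        have h6 : Q.map (MulAut.conj (u⁻¹ * w)).toMonoidHom =
            (Q.map (MulAut.conj w).toMonoidHom).map (MulAut.conj u⁻¹).toMonoidHom := by
          ext g
          rw [ti_conj_mem, ti_conj_mem, ti_conj_mem]
          have : (u⁻¹ * w)⁻¹ * g * (u⁻¹ * w) = w⁻¹ * ((u⁻¹)⁻¹ * g * u⁻¹) * w := by group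
          rw [this]
        rw [h6, ← h5]
        ext g
        rw [ti_conj_mem, ti_conj_mem]
        have : u⁻¹ * ((u⁻¹)⁻¹ * g * u⁻¹) * u = g := by group
        rw [this]
  · refine ⟨⟨((y⁻¹ : G) : G ⧸ Subgroup.normalizer (Q : Set G)), ?_⟩⟩
    show x • ((y⁻¹ : G) : G ⧸ Subgroup.normalizer (Q : Set G)) = _
    rw [ti_smul_iff, inv_inv]
    exact hy

/-- The inner product of functions with support in `D` can be computed in the normaliser. -/
theorem ip_restrict (hr : r.Prime) (hc : CycSyl G r) (Q : Subgroup G) {a : ℕ}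
    (hQ : Nat.card Q = r ^ a) (f g : G → ℂ) (hf : ∀ x y, f (y * x * y⁻¹) = f x)
    (hg : ∀ x y, g (y * x * y⁻¹) = g x) (hD : ∀ x, f x ≠ 0 → r ^ a ∣ orderOf x) :
    ip f g = ip (fun x : Subgroup.normalizer (Q : Set G) => f x)
      (fun x : Subgroup.normalizer (Q : Set G) => g x) := by
  classical
  have : Fintype G := Fintype.ofFinite G
  set N := Subgroup.normalizer (Q : Set G) with hN
  have : Fintype N := Fintype.ofFinite N
  have h1 := sum_fix N (fun x => f x * g x⁻¹) (by
    intro v y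
    have : (y * v * y⁻¹)⁻¹ = y * v⁻¹ * y⁻¹ := by group
    rw [hf, this, hg])
  have h2 : ∑ v : G, f v * g v⁻¹ * ((fix (G ⧸ N) v : ℕ) : ℂ) = ∑ v : G, f v * g v⁻¹ := by
    refine Finset.sum_congr rfl fun v _ => ?_
    by_cases h0 : f v = 0
    · rw [h0]; simp
    · rw [fix_one hr hc Q hQ v (hD v h0)]
      simp
  rw [h2] at h1
  unfold ip
  rw [finsum_eq_sum_of_fintype, finsum_eq_sum_of_fintype, h1]
  have h3 : (Nat.card G : ℂ) = N.index * Nat.card N := by
    rw [← Nat.cast_mul, mul_comm, N.card_mul_index]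
  have h4 : (N.index : ℂ) ≠ 0 := by exact_mod_cast N.index_ne_zero_of_finite
  have h5 : (Nat.card N : ℂ) ≠ 0 := by exact_mod_cast (Nat.card_pos (α := N)).ne'
  rw [h3]
  field_simp
  rfl

end Pool.Agent.CS26
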