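import Mathlib
import Pool.Agent.CS26.Defs

/-!
# The inner product of characters (helper file for MP_79850a_al)

`isCh_of`: `FV86.exists_twist` with the identity (`RingEquiv.refl ℂ`). `IsCh.her`: `σ` preserves
the averaged hermitian form. `IsCh.nat`:
`Representation.card_inv_mul_sum_char_mul_char_eq_finrank`. `N1.orth`: `k = ip φ ψ` is a natural number;
`f = φ - ψ` is hermitian and `ip f f = 2 - 2 k` is `≥ 0`, and `0` only for `f = 0`.
-/

set_option autoImplicit false

namespace Pool.Agent.CS26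

open Pool.Agent.FV86

variable {G : Type*} [Group G]

theorem ip_eq [Fintype G] (f g : G → ℂ) : ip f g = (Nat.card G : ℂ)⁻¹ * ∑ x, f x * g x⁻¹ := by
  rw [ip, finsum_eq_sum_of_fintype]

theorem ip_sub_left [Finite G] (f g h : G → ℂ) : ip (f - g) h = ip f h - ip g h := by
  have : Fintype G := Fintype.ofFinite G
  rw [ip_eq, ip_eq, ip_eq, ← mul_sub, ← Finset.sum_sub_distrib]
  simp only [Pi.sub_apply, sub_mul]

theorem ip_sub_right [Finite G] (f g h : G → ℂ) : ip h (f - g) = ip h f - ip h g := by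
  have : Fintype G := Fintype.ofFinite G
  rw [ip_eq, ip_eq, ip_eq, ← mul_sub, ← Finset.sum_sub_distrib]
  simp only [Pi.sub_apply, mul_sub]

theorem ip_add_left [Finite G] (f g h : G → ℂ) : ip (f + g) h = ip f h + ip g h := by
  have : Fintype G := Fintype.ofFinite G
  rw [ip_eq, ip_eq, ip_eq, ← mul_add, ← Finset.sum_add_distrib]
  simp only [Pi.add_apply, add_mul]

theorem ip_sum_left [Finite G] {ι : Type*} (s : Finset ι) (f : ι → G → ℂ) (h : G → ℂ) :
    ip (∑ i ∈ s, f i) h = ∑ i ∈ s, ip (f i) h := by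
  have : Fintype G := Fintype.ofFinite G
  simp only [ip_eq, Finset.sum_apply, Finset.sum_mul]
  rw [Finset.sum_comm, Finset.mul_sum]

theorem ip_comm [Finite G] (f g : G → ℂ) : ip f g = ip g f := by
  have : Fintype G := Fintype.ofFinite G
  rw [ip_eq, ip_eq, ← Equiv.sum_comp (Equiv.inv G)]
  simp only [Equiv.inv_apply, inv_inv]
  congr 1
  exact Finset.sum_congr rfl fun x _ => mul_comm _ _

theorem ip_map [Finite G] (T : ℂ ≃+* ℂ) (f g : G → ℂ) : T (ip f g) = ip (T ∘ f) (T ∘ g) := by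
  have : Fintype G := Fintype.ofFinite G
  rw [ip_eq, ip_eq, map_mul, map_inv₀, map_natCast, map_sum]
  simp only [map_mul, Function.comp_apply]

theorem Her.sub {f g : G → ℂ} (hf : Her f) (hg : Her g) : Her (f - g) := by
  intro x
  simp only [Pi.sub_apply, hf x, hg x, star_sub]

/-- The form is positive definite on hermitian functions. -/
theorem Her.eq_zero [Finite G] {f : G → ℂ} (hf : Her f) (h : (ip f f).re ≤ 0) : f = 0 := by
  have : Fintype G := Fintype.ofFinite G
  have h1 : ip f f = (((Nat.card G : ℝ)⁻¹ * ∑ x, Complex.normSq (f x) : ℝ) : ℂ) := by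
    rw [ip_eq]
    push_cast
    congr 1
    refine Finset.sum_congr rfl fun x _ => ?_
    rw [hf x]
    exact Complex.mul_conj (f x)
  rw [h1, Complex.ofReal_re] at h
  have hc : (0 : ℝ) < (Nat.card G : ℝ)⁻¹ := by
    have : 0 < Nat.card G := Nat.card_pos
    positivity
  have h2 : ∑ x, Complex.normSq (f x) ≤ 0 := by
    by_contra hcon
    have := mul_pos hc (not_le.mp hcon)
    linarith
  have h3 : ∑ x, Complex.normSq (f x) = 0 :=
    le_antisymm h2 (Finset.sum_nonneg fun x _ => Complex.normSq_nonneg _)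
  rw [Finset.sum_eq_zero_iff_of_nonneg fun x _ => Complex.normSq_nonneg _] at h3
  funext x
  exact Complex.normSq_eq_zero.mp (h3 x (Finset.mem_univ x))

theorem isCh_of {V : Type*} [AddCommGroup V] [Module ℂ V] [FiniteDimensional ℂ V]
    (ρ : Representation ℂ G V) : IsCh ρ.character := by
  obtain ⟨ρ', h, -⟩ := exists_twist ρ (RingEquiv.refl ℂ)
  exact ⟨_, ρ', funext fun g => by rw [h]; rfl⟩

open Matrix in
open scoped ComplexOrder in
theorem IsCh.her [Finite G] {φ : G → ℂ} (h : IsCh φ) : Her φ := by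
  classical
  obtain ⟨d, σ, rfl⟩ := h
  have : Fintype G := Fintype.ofFinite G
  let M : G → Matrix (Fin d) (Fin d) ℂ := fun g => LinearMap.toMatrix' (σ g)
  have hM1 : M 1 = 1 := by
    simp only [M, map_one, LinearMap.toMatrix'_one]
  have hMm : ∀ g h, M (g * h) = M g * M h := by
    intro g h
    simp only [M, map_mul, LinearMap.toMatrix'_mul]
  have htr : ∀ g, σ.character g = (M g).trace := by
    intro g
    rw [Representation.character, ← Matrix.toLin'_toMatrix' (σ g), Matrix.trace_toLin'_eq]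
  let P : Matrix (Fin d) (Fin d) ℂ := ∑ g, (M g)ᴴ * M g
  have hP : ∀ x, (M x)ᴴ * P * M x = P := by
    intro x
    simp only [P, Finset.mul_sum, Finset.sum_mul]
    rw [← Equiv.sum_comp (Equiv.mulRight x) fun g => (M g)ᴴ * M g]
    apply Finset.sum_congr rfl
    intro g _
    rw [Equiv.coe_mulRight, hMm, Matrix.conjTranspose_mul]
    simp only [Matrix.mul_assoc]
  have hPd : P.PosDef := by
    have h1 : P = (M 1)ᴴ * M 1 + ∑ g ∈ Finset.univ.erase 1, (M g)ᴴ * M g :=
      (Finset.add_sum_erase _ _ (Finset.mem_univ 1)).symm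
    rw [h1, hM1, Matrix.conjTranspose_one, Matrix.mul_one]
    exact Matrix.PosDef.one.add_posSemidef
      (Matrix.posSemidef_sum _ fun g _ => Matrix.posSemidef_conjTranspose_mul_self _)
  have hPu : IsUnit P := hPd.isUnit
  intro x
  have hinv : M x * M x⁻¹ = 1 := by rw [← hMm, mul_inv_cancel, hM1]
  have h2 : (M x)ᴴ * P = P * M x⁻¹ := by
    calc (M x)ᴴ * P = (M x)ᴴ * P * (M x * M x⁻¹) := by rw [hinv, Matrix.mul_one]
      _ = (M x)ᴴ * P * M x * M x⁻¹ := by simp only [Matrix.mul_assoc]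
      _ = P * M x⁻¹ := by rw [hP]
  obtain ⟨u, hu⟩ := hPu
  have h3 : (M x)ᴴ = P * M x⁻¹ * (↑u⁻¹ : Matrix (Fin d) (Fin d) ℂ) := by
    rw [← h2, Matrix.mul_assoc, ← hu, Units.mul_inv, Matrix.mul_one]
  rw [htr, htr, ← Matrix.trace_conjTranspose, h3, Matrix.trace_mul_comm, ← Matrix.mul_assoc, ← hu,
    Units.inv_mul, Matrix.one_mul]

theorem ch_ip {V W : Type*} [AddCommGroup V] [Module ℂ V] [FiniteDimensional ℂ V]
    [AddCommGroup W] [Module ℂ W] [FiniteDimensional ℂ W] [Finite G]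
    (ρ : Representation ℂ G V) (σ : Representation ℂ G W) :
    ip σ.character ρ.character = Module.finrank ℂ (Representation.IntertwiningMap ρ σ) := by
  classical
  have : Fintype G := Fintype.ofFinite G
  have hG : (Nat.card G : ℂ) ≠ 0 := by
    have : Nat.card G ≠ 0 := Nat.card_ne_zero.mpr ⟨⟨1⟩, inferInstance⟩
    exact_mod_cast this
  let _ : Invertible (Nat.card G : ℂ) := invertibleOfNonzero hG
  rw [ip_eq, Representation.card_inv_mul_sum_char_mul_char_eq_finrank]

theorem IsCh.nat [Finite G] {φ ψ : G → ℂ} (hφ : IsCh φ) (hψ : IsCh ψ) : ∃ k : ℕ, ip φ ψ = k := by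
  obtain ⟨d, σ, rfl⟩ := hφ
  obtain ⟨e, τ, rfl⟩ := hψ
  exact ⟨_, ch_ip τ σ⟩

theorem IsCh.twist {φ : G → ℂ} (h : IsCh φ) (T : ℂ ≃+* ℂ) : IsCh (T ∘ φ) := by
  obtain ⟨d, σ, rfl⟩ := h
  obtain ⟨ρ', h, -⟩ := exists_twist σ T
  exact ⟨_, ρ', funext fun g => by rw [h]; rfl⟩

theorem IsCh.conj {φ : G → ℂ} (h : IsCh φ) (x y : G) : φ (y * x * y⁻¹) = φ x := by
  obtain ⟨d, σ, rfl⟩ := h
  exact Representation.char_conj σ x y

/-- Restriction along a homomorphism. -/
theorem IsCh.comp {H : Type*} [Group H] {φ : G → ℂ} (h : IsCh φ) (j : H →* G) : IsCh (φ ∘ j) := by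
  obtain ⟨d, σ, rfl⟩ := h
  exact ⟨d, σ.comp j, rfl⟩

theorem n1_of {V : Type*} [AddCommGroup V] [Module ℂ V] [FiniteDimensional ℂ V] [Finite G]
    (ρ : Representation ℂ G V) [ρ.IsIrreducible] : N1 ρ.character := by
  classical
  refine ⟨isCh_of ρ, ?_⟩
  have : Fintype G := Fintype.ofFinite G
  have hG : (Nat.card G : ℂ) ≠ 0 := by
    have : Nat.card G ≠ 0 := Nat.card_ne_zero.mpr ⟨⟨1⟩, inferInstance⟩
    exact_mod_cast this
  let _ : Invertible (Nat.card G : ℂ) := invertibleOfNonzero hG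
  rw [ip_eq, Representation.char_orthonormal ρ ρ, if_pos ⟨Representation.Equiv.refl ρ⟩]

theorem N1.twist [Finite G] {φ : G → ℂ} (h : N1 φ) (T : ℂ ≃+* ℂ) : N1 (T ∘ φ) :=
  ⟨h.1.twist T, by rw [← ip_map, h.2, map_one]⟩

theorem N1.orth [Finite G] {φ ψ : G → ℂ} (hφ : N1 φ) (hψ : N1 ψ) (h : φ ≠ ψ) : ip φ ψ = 0 := by
  obtain ⟨k, hk⟩ := hφ.1.nat hψ.1
  rcases Nat.eq_zero_or_pos k with h0 | h0
  · rw [hk, h0, Nat.cast_zero]
  · exfalso
    apply h
    have h1 : ip (φ - ψ) (φ - ψ) = 2 - 2 * k := by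
      rw [ip_sub_left, ip_sub_right, ip_sub_right, hφ.2, hψ.2, ip_comm ψ φ, hk]
      ring
    have h2 : (ip (φ - ψ) (φ - ψ)).re ≤ 0 := by
      rw [h1]
      have : (1 : ℝ) ≤ k := by exact_mod_cast h0
      simp
      linarith
    exact sub_eq_zero.mp ((hφ.1.her.sub hψ.1.her).eq_zero h2)

/-- The degree is a positive natural number. -/
theorem N1.one [Finite G] {φ : G → ℂ} (h : N1 φ) : ∃ k : ℕ, 0 < k ∧ φ 1 = k := by
  obtain ⟨⟨d, σ, rfl⟩, h2⟩ := h
  have h1 : σ.character 1 = d := by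
    rw [Representation.char_one, Module.finrank_fin_fun]
  refine ⟨d, ?_, h1⟩
  rcases Nat.eq_zero_or_pos d with h0 | h0
  · exfalso
    subst h0
    have h3 : σ.character = 0 := by
      funext g
      have : σ g = 0 := by
        ext v i
        exact i.elim0
      rw [Representation.character, this, map_zero]
      rfl
    have : Fintype G := Fintype.ofFinite G
    rw [h3, ip_eq] at h2
    simp at h2
  · exact h0

/-- A constituent has positive multiplicity. -/
theorem Con.pos {V : Type*} [AddCommGroup V] [Module ℂ V] [FiniteDimensional ℂ V] [Finite G]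
    {ρ : Representation ℂ G V} {φ : G → ℂ} (h : Con ρ φ) :
    N1 φ ∧ ∃ m : ℕ, 0 < m ∧ ip ρ.character φ = m := by
  obtain ⟨d, σ, hσ, rfl, f, hf, hfg⟩ := h
  have hN := n1_of σ
  refine ⟨hN, _, ?_, ch_ip σ ρ⟩
  obtain ⟨k, hk, hk1⟩ := hN.one
  have hd : d = k := by
    rw [Representation.char_one, Module.finrank_fin_fun] at hk1
    exact_mod_cast hk1
  have : Nonempty (Fin d) := ⟨⟨0, by omega⟩⟩
  have : Nontrivial (Representation.IntertwiningMap σ ρ) := by
    refine ⟨LinearMap.intertwiningMap_of_isIntertwiningMap σ ρ f (fun g v => hfg g v), 0, ?_⟩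
    intro h0
    have h1 : ∀ v, f v = 0 := by
      intro v
      have := congrArg (fun F : Representation.IntertwiningMap σ ρ => F v) h0
      exact this
    obtain ⟨v, hv⟩ := exists_ne (0 : Fin d → ℂ)
    exact hv (hf ((h1 v).trans (map_zero f).symm))
  exact Module.finrank_pos

end Pool.Agent.CS26
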