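import Mathlib
import Pool.Agent.CS26.Ip
import Pool.Agent.CS26.Dec

/-!
# Norm two (helper file for MP_79850a_al)

`f = χ - T χ = ∑_i φ_i - ∑_i T φ_i` (`exists_decomp`), where all `φ_i`, `T φ_i` have norm one and are
pairwise equal or orthogonal (`N1.orth`). For each function `φ` with `N1 φ` the number `ip f φ` is an
integer `c φ`, and `f = ∑ c φ • φ` over the finite set of the functions `φ_i`, `T φ_i`. As `f 1 = 0`
(`χ 1` is a natural number), `φ 1 > 0` and `f ≠ 0`, there are `φ₁` with `c φ₁ ≥ 1` (so `φ₁` is one of the `φ_i`: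
otherwise `c φ₁ ≤ 0`) and `φ₂` with `c φ₂ ≤ -1`. Then `g = f - φ₁ + φ₂` is hermitian and
`ip g g = 2 + 1 + 1 - 2 c φ₁ + 2 c φ₂ ≤ 0`, so `g = 0`.
-/

set_option autoImplicit false

namespace Pool.Agent.CS26

open Pool.Agent.FV86

open Finset in
private theorem Two_sum_fiber {G : Type*} {k : ℕ} (φ : Fin k → G → ℂ) [DecidableEq (G → ℂ)]
    (Φ : Finset (G → ℂ)) (h : ∀ i, φ i ∈ Φ) :
    ∑ i, φ i = ∑ ψ ∈ Φ, ((univ.filter fun i => φ i = ψ).card : ℂ) • ψ := by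
  rw [← sum_fiberwise_of_maps_to (s := univ) (t := Φ) (g := φ) (fun i _ => h i) φ]
  apply sum_congr rfl
  intro ψ _
  rw [sum_congr rfl (g := fun _ => ψ) (fun i hi => (mem_filter.1 hi).2), sum_const]
  rw [← Nat.cast_smul_eq_nsmul ℂ]

open Finset in
private theorem Two_ip_sum {G : Type*} [Group G] [Finite G] {k : ℕ} (φ : Fin k → G → ℂ)
    [DecidableEq (G → ℂ)] (hN : ∀ i, N1 (φ i)) {ψ : G → ℂ} (hψ : N1 ψ) :
    ip (∑ i, φ i) ψ = ((univ.filter fun i => φ i = ψ).card : ℂ) := by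
  rw [ip_sum_left]
  have h1 : ∀ i ∈ (univ : Finset (Fin k)), ip (φ i) ψ = if φ i = ψ then (1 : ℂ) else 0 := by
    intro i _
    split_ifs with h
    · rw [h]
      exact hψ.2
    · exact (hN i).orth hψ h
  rw [sum_congr rfl h1, sum_boole]

theorem norm_two {G V : Type*} [Group G] [Finite G] [AddCommGroup V] [Module ℂ V]
    [FiniteDimensional ℂ V] (ρ : Representation ℂ G V) (T : ℂ ≃+* ℂ)
    (h2 : ip (ρ.character - T ∘ ρ.character) (ρ.character - T ∘ ρ.character) = 2) :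
    ∃ φ₁ φ₂ : G → ℂ, Con ρ φ₁ ∧ N1 φ₁ ∧ N1 φ₂ ∧ φ₁ ≠ φ₂ ∧
      ρ.character - T ∘ ρ.character = φ₁ - φ₂ := by
  classical
  obtain ⟨k, φ, hcon, hsum⟩ := exists_decomp ρ
  have hN : ∀ i, N1 (φ i) := fun i => (hcon i).pos.1
  have hNT : ∀ i, N1 (T ∘ φ i) := fun i => (hN i).twist T
  have hTsum : T ∘ ρ.character = ∑ i, T ∘ φ i := by
    rw [hsum]
    funext x
    simp only [Function.comp_apply, Finset.sum_apply, map_sum]
  have hch : IsCh ρ.character := isCh_of ρ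
  have hher : Her (ρ.character - T ∘ ρ.character) := hch.her.sub (hch.twist T).her
  set f : G → ℂ := ρ.character - T ∘ ρ.character with hf
  set Φ : Finset (G → ℂ) := Finset.univ.image φ ∪ Finset.univ.image (fun i => T ∘ φ i) with hΦ
  set a : (G → ℂ) → ℕ := fun ψ => (Finset.univ.filter fun i => φ i = ψ).card with ha
  set b : (G → ℂ) → ℕ := fun ψ => (Finset.univ.filter fun i => T ∘ φ i = ψ).card with hb
  have hΦN : ∀ ψ ∈ Φ, N1 ψ := by
    intro ψ hψ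
    rw [hΦ, Finset.mem_union, Finset.mem_image, Finset.mem_image] at hψ
    rcases hψ with ⟨i, _, rfl⟩ | ⟨i, _, rfl⟩
    · exact hN i
    · exact hNT i
  have h1 : ρ.character = ∑ ψ ∈ Φ, (a ψ : ℂ) • ψ := by
    rw [hsum]
    exact Two_sum_fiber φ Φ fun i => by
      rw [hΦ, Finset.mem_union]
      exact Or.inl (Finset.mem_image_of_mem _ (Finset.mem_univ i))
  have h3 : T ∘ ρ.character = ∑ ψ ∈ Φ, (b ψ : ℂ) • ψ := by
    rw [hTsum]
    exact Two_sum_fiber (fun i => T ∘ φ i) Φ fun i => by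
      rw [hΦ, Finset.mem_union]
      exact Or.inr (Finset.mem_image_of_mem _ (Finset.mem_univ i))
  have hfs : f = ∑ ψ ∈ Φ, ((a ψ : ℂ) - b ψ) • ψ := by
    rw [hf, h3]
    conv_lhs => rw [h1]
    rw [← Finset.sum_sub_distrib]
    exact Finset.sum_congr rfl fun ψ _ => (sub_smul _ _ _).symm
  have hip : ∀ ψ, N1 ψ → ip f ψ = (a ψ : ℂ) - b ψ := by
    intro ψ hψ
    rw [hf, ip_sub_left, hTsum, hsum, Two_ip_sum φ hN hψ, Two_ip_sum (fun i => T ∘ φ i) hNT hψ]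
  -- degrees
  have hdeg : ∀ ψ ∈ Φ, ∃ m : ℕ, 0 < m ∧ ψ 1 = m := fun ψ hψ => (hΦN ψ hψ).one
  choose! m hm0 hm1 using hdeg
  have hf1 : f 1 = 0 := by
    have h4 : ρ.character 1 = ((∑ ψ ∈ Φ, a ψ * m ψ : ℕ) : ℂ) := by
      rw [h1]
      rw [Finset.sum_apply]
      push_cast
      exact Finset.sum_congr rfl fun ψ hψ => by
        rw [Pi.smul_apply, smul_eq_mul, hm1 ψ hψ]
    rw [hf, Pi.sub_apply, Function.comp_apply, h4, map_natCast, sub_self]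
  have hz : ∑ ψ ∈ Φ, ((a ψ : ℤ) - b ψ) * m ψ = 0 := by
    have h4 : ((∑ ψ ∈ Φ, ((a ψ : ℤ) - b ψ) * m ψ : ℤ) : ℂ) = f 1 := by
      rw [hfs, Finset.sum_apply]
      push_cast
      exact Finset.sum_congr rfl fun ψ hψ => by
        rw [Pi.smul_apply, smul_eq_mul, hm1 ψ hψ]
    rw [hf1] at h4
    exact_mod_cast h4
  have hne : ∃ ψ ∈ Φ, ((a ψ : ℤ) - b ψ) * m ψ ≠ 0 := by
    by_contra hno
    push Not at hno
    have hf0 : f = 0 := by
      rw [hfs]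
      apply Finset.sum_eq_zero
      intro ψ hψ
      have h5 := hno ψ hψ
      rcases mul_eq_zero.1 h5 with h6 | h6
      · have h7 : (a ψ : ℂ) - b ψ = 0 := by exact_mod_cast h6
        rw [h7, zero_smul]
      · have := hm0 ψ hψ
        exact absurd (by exact_mod_cast h6) this.ne'
    rw [hf0] at h2
    have h8 : ip (0 : G → ℂ) 0 = 0 := by
      have := ip_sub_left (0 : G → ℂ) 0 0
      simpa using this
    rw [h8] at h2
    exact two_ne_zero h2.symm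
  obtain ⟨φ₁, hφ₁, hp⟩ := Finset.exists_pos_of_sum_zero_of_exists_nonzero _ hz hne
  have hz' : ∑ ψ ∈ Φ, -(((a ψ : ℤ) - b ψ) * m ψ) = 0 := by
    rw [Finset.sum_neg_distrib, hz, neg_zero]
  obtain ⟨φ₂, hφ₂, hq⟩ := Finset.exists_pos_of_sum_zero_of_exists_nonzero _ hz'
    (by obtain ⟨ψ, h5, h6⟩ := hne; exact ⟨ψ, h5, neg_ne_zero.2 h6⟩)
  have hc1 : (1 : ℤ) ≤ (a φ₁ : ℤ) - b φ₁ := by
    have h5 : (0 : ℤ) ≤ m φ₁ := by positivity
    by_contra hh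
    have h6 : (a φ₁ : ℤ) - b φ₁ ≤ 0 := by omega
    exact absurd hp (not_lt.2 (mul_nonpos_of_nonpos_of_nonneg h6 h5))
  have hc2 : (a φ₂ : ℤ) - b φ₂ ≤ -1 := by
    have h5 : (0 : ℤ) ≤ m φ₂ := by positivity
    by_contra hh
    have h6 : 0 ≤ (a φ₂ : ℤ) - b φ₂ := by omega
    have h7 := mul_nonneg h6 h5
    linarith
  have hcon1 : Con ρ φ₁ := by
    have h5 : 0 < a φ₁ := by omega
    rw [ha] at h5
    obtain ⟨i, hi⟩ := Finset.card_pos.1 h5
    rw [← (Finset.mem_filter.1 hi).2]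
    exact hcon i
  have hn1 := hΦN φ₁ hφ₁
  have hn2 := hΦN φ₂ hφ₂
  have hne12 : φ₁ ≠ φ₂ := by
    rintro rfl
    omega
  refine ⟨φ₁, φ₂, hcon1, hn1, hn2, hne12, ?_⟩
  have hg : Her (f - (φ₁ - φ₂)) := hher.sub (hn1.1.her.sub hn2.1.her)
  have h12 : ip φ₁ φ₂ = 0 := hn1.orth hn2 hne12
  have h21 : ip φ₂ φ₁ = 0 := hn2.orth hn1 hne12.symm
  have hgg : ip (f - (φ₁ - φ₂)) (f - (φ₁ - φ₂)) =
      4 - 2 * ((a φ₁ : ℂ) - b φ₁) + 2 * ((a φ₂ : ℂ) - b φ₂) := by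
    simp only [ip_sub_left, ip_sub_right, h2, hip φ₁ hn1, hip φ₂ hn2, ip_comm φ₁ f, ip_comm φ₂ f,
      hn1.2, hn2.2, h12, h21]
    ring
  have hre : (ip (f - (φ₁ - φ₂)) (f - (φ₁ - φ₂))).re ≤ 0 := by
    have h5 : ip (f - (φ₁ - φ₂)) (f - (φ₁ - φ₂)) =
        (((4 - 2 * ((a φ₁ : ℤ) - b φ₁) + 2 * ((a φ₂ : ℤ) - b φ₂) : ℤ) : ℝ) : ℂ) := by
      rw [hgg]
      push_cast
      ring
    rw [h5, Complex.ofReal_re]
    have h6 : (4 - 2 * ((a φ₁ : ℤ) - b φ₁) + 2 * ((a φ₂ : ℤ) - b φ₂) : ℤ) ≤ 0 := by omega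
    exact_mod_cast h6
  have := hg.eq_zero hre
  exact sub_eq_zero.1 this

end Pool.Agent.CS26
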