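import Mathlib
import Pool.Agent.CS26.Two
import Pool.Agent.CS26.Aut
import Pool.Agent.CS26.TI
import Pool.Agent.CS26.Gal

/-!
# Step A: passage to the normaliser of a subgroup of order `r ^ a` (helper file for MP_79850a_al)

Note 3530, step (2), with `χ = ρ.character`, `T` from `exists_aut`, `f = χ - T ∘ χ`.
-/

set_option autoImplicit false

namespace Pool.Agent.CS26

open Pool.Agent.FV86

private theorem StepA_or {G : Type*} [Group G] [Finite G] {φ ψ : G → ℂ} (hφ : N1 φ)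
    (hψ : N1 ψ) : (φ = ψ ∧ ip φ ψ = 1) ∨ (φ ≠ ψ ∧ ip φ ψ = 0) := by
  by_cases h : φ = ψ
  · left
    subst h
    exact ⟨rfl, hφ.2⟩
  · exact Or.inr ⟨h, N1.orth hφ hψ h⟩

private theorem StepA_ip {G : Type*} [Group G] [Finite G] (a b c d : G → ℂ) :
    ip (a - b) (c - d) = ip a c - ip a d - ip b c + ip b d := by
  rw [ip_sub_left, ip_sub_right, ip_sub_right]
  ring

theorem stepA {G V : Type*} [Group G] [Finite G] [AddCommGroup V] [Module ℂ V]
    [FiniteDimensional ℂ V] (ρ : Representation ℂ G V) [ρ.IsIrreducible] {r : ℕ}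
    (hr : r ∈ (conductor ρ.character).primeFactors) (hc : CycSyl G r) (Q : Subgroup G)
    (hQ : Nat.card Q = r ^ (conductor ρ.character).factorization r) :
    ∃ φ, Con (ρ.comp (Subgroup.normalizer (Q : Set G)).subtype) φ ∧
      valueField ρ.character ≤ valueField φ := by
  classical
  have hp : r.Prime := Nat.prime_of_mem_primeFactors hr
  obtain ⟨T, ⟨x₀, hx₀⟩, hT⟩ := exists_aut ρ hr
  set N : Subgroup G := Subgroup.normalizer (Q : Set G) with hN
  set χ : G → ℂ := ρ.character with hχ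
  have c1 : IsCh χ := isCh_of ρ
  have n1 : N1 χ := n1_of ρ
  have n2 : N1 (T ∘ χ) := n1.twist T
  have n3 : N1 (T ∘ (T ∘ χ)) := n2.twist T
  have ne : χ ≠ T ∘ χ := fun h => hx₀ (congrFun h x₀).symm
  have ne' : T ∘ χ ≠ T ∘ (T ∘ χ) := fun h => ne (by
    funext x
    exact T.injective (congrFun h x))
  set f : G → ℂ := χ - T ∘ χ with hf
  -- `f` is a class function with support in `D`
  have hcl : ∀ x y, f (y * x * y⁻¹) = f x := by
    intro x y
    simp only [hf, Pi.sub_apply, Function.comp_apply, c1.conj x y]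
  have hD : ∀ x, f x ≠ 0 → r ^ (conductor χ).factorization r ∣ orderOf x := by
    intro x hx
    refine hT x fun h => hx ?_
    simp only [hf, Pi.sub_apply, Function.comp_apply, h, sub_self]
  have hff : ip f f = 2 := by
    rw [hf, StepA_ip, n1.2, n2.2, N1.orth n1 n2 ne, N1.orth n2 n1 ne.symm]
    norm_num
  -- restriction to `N`
  set ρN : Representation ℂ N V := ρ.comp N.subtype with hρN
  have hres : ρN.character - T ∘ ρN.character = fun x : N => f x := rfl
  have h2 : ip (ρN.character - T ∘ ρN.character) (ρN.character - T ∘ ρN.character) = 2 := by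
    rw [hres, ← hff]
    exact (ip_restrict hp hc Q hQ f f hcl hcl hD).symm
  obtain ⟨φ₁, φ₂, hcon, m₁, m₂, hne, hφ⟩ := norm_two ρN T h2
  have hfN : ∀ x : N, f x = φ₁ x - φ₂ x := by
    intro x
    have := congrFun hφ x
    exact this
  refine ⟨φ₁, hcon, ?_⟩
  -- the inner product with `T ∘ f`
  have hTf : ip f (T ∘ f) = -1 ∨ ip f (T ∘ f) = -2 := by
    have e : T ∘ f = T ∘ χ - T ∘ (T ∘ χ) := by
      funext x
      simp only [hf, Function.comp_apply, Pi.sub_apply, map_sub]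
    rw [e, hf, StepA_ip, N1.orth n1 n2 ne, n2.2, N1.orth n2 n3 ne']
    rcases StepA_or n1 n3 with ⟨-, h⟩ | ⟨-, h⟩
    · right
      rw [h]
      norm_num
    · left
      rw [h]
      norm_num
  have hTN : ip f (T ∘ f) = ip (φ₁ - φ₂) (T ∘ φ₁ - T ∘ φ₂) := by
    rw [ip_restrict hp hc Q hQ f (T ∘ f) hcl (fun x y => by
      simp only [Function.comp_apply, hcl x y]) hD]
    have a1 : (fun x : N => f x) = φ₁ - φ₂ := by
      funext x
      exact hfN x
    have a2 : (fun x : N => (T ∘ f) x) = T ∘ φ₁ - T ∘ φ₂ := by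
      funext x
      simp only [Function.comp_apply, hfN, Pi.sub_apply, map_sub]
    rw [a1, a2]
  have hor : φ₁ = T ∘ φ₂ ∨ φ₂ = T ∘ φ₁ := by
    by_contra hcon'
    rw [not_or] at hcon'
    rw [hTN, StepA_ip, N1.orth m₁ (m₂.twist T) hcon'.1, N1.orth m₂ (m₁.twist T) hcon'.2] at hTf
    rcases StepA_or m₁ (m₁.twist T) with ⟨-, h⟩ | ⟨-, h⟩ <;>
    rcases StepA_or m₂ (m₂.twist T) with ⟨-, h'⟩ | ⟨-, h'⟩ <;>
    rw [h, h'] at hTf <;> norm_num at hTf
  -- the fields of values
  refine valueField_le_of_fix c1 m₁.1 fun τ hτ => ?_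
  have hτ₂ : ∀ x, τ (φ₂ x) = φ₂ x := by
    intro x
    rcases hor with h | h
    · apply T.injective
      rw [aut_comm_char m₂.1 T τ x]
      have h3 : T (φ₂ x) = φ₁ x := (congrFun h x).symm
      rw [h3, hτ]
    · have h3 : φ₂ x = T (φ₁ x) := congrFun h x
      rw [h3, ← aut_comm_char m₁.1 T τ x, hτ]
  have hτf : τ ∘ f = f := by
    funext x
    by_cases hx : f x = 0
    · simp only [Function.comp_apply, hx, map_zero]
    · obtain ⟨y, hy⟩ := exists_conj hp hc Q hQ x (hD x hx)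
      have h3 : f x = φ₁ ⟨_, hy⟩ - φ₂ ⟨_, hy⟩ := by
        rw [← hfN ⟨_, hy⟩]
        exact (hcl x y).symm
      simp only [Function.comp_apply, h3, map_sub, hτ, hτ₂]
  by_contra hcon'
  have k1 : N1 (τ ∘ χ) := n1.twist τ
  have k2 : N1 (T ∘ (τ ∘ χ)) := k1.twist T
  have kne : χ ≠ τ ∘ χ := fun h => hcon' fun x => (congrFun h x).symm
  have kne' : T ∘ χ ≠ T ∘ (τ ∘ χ) := fun h => kne (by
    funext x
    exact T.injective (congrFun h x))
  have e2 : f = τ ∘ χ - T ∘ (τ ∘ χ) := by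
    conv_lhs => rw [← hτf]
    funext x
    simp only [hf, Function.comp_apply, Pi.sub_apply, map_sub, aut_comm_char c1 T τ x]
  have h5 : ip (χ - T ∘ χ) (τ ∘ χ - T ∘ (τ ∘ χ)) = 2 := by
    rw [← hf, ← e2, hff]
  rw [StepA_ip, N1.orth n1 k1 kne, N1.orth n2 k2 kne'] at h5
  rcases StepA_or n1 k2 with ⟨-, h⟩ | ⟨-, h⟩ <;>
  rcases StepA_or n2 k1 with ⟨-, h'⟩ | ⟨-, h'⟩ <;>
  rw [h, h'] at h5 <;> norm_num at h5

end Pool.Agent.CS26
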