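import Mathlib
import Pool.Agent.CS26.Ip

/-!
# A normal cyclic `r`-subgroup in a faithful irreducible representation
(helper file for MP_79850a_al)

`A` is normal in `G`, cyclic of order `r ^ a`, and `ρ` is faithful and irreducible. If `z ∈ A`, `z ≠ 1`, fixes a
vector `v ≠ 0`: `zpowers z` is normal in `G` (`A` is cyclic and normal), so the fixed space of `z` is an
invariant subspace `≠ 0`, so it is `V` and `z` acts trivially: contradiction. `scal`: for a constituent
`σ` of the restriction to a subgroup `C` which centralises `A` and contains it, `σ a` is a scalar by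
Schur's lemma (an eigenspace of `σ a` is invariant), and the scalar is injective by `no_fix`.
-/

set_option autoImplicit false

namespace Pool.Agent.CS26

open Pool.Agent.FV86

/-- Conjugates of an element of a normal cyclic subgroup are powers of it. -/
private theorem conj_mem {G : Type*} [Group G] (A : Subgroup G) [A.Normal] [IsCyclic A] {z : G}
    (hz : z ∈ A) (g : G) : ∃ k : ℤ, g⁻¹ * z * g = z ^ k := by
  obtain ⟨u, hu⟩ := IsCyclic.exists_generator (α := A)
  obtain ⟨k, hk⟩ := Subgroup.mem_zpowers_iff.1 (hu ⟨z, hz⟩)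
  have h1 : g⁻¹ * (u : G) * g ∈ A := by
    have := (inferInstance : A.Normal).conj_mem (u : G) u.2 g⁻¹
    rwa [inv_inv] at this
  obtain ⟨j, hj⟩ := Subgroup.mem_zpowers_iff.1 (hu ⟨_, h1⟩)
  have hk' : (u : G) ^ k = z := congrArg Subtype.val hk
  have hj' : (u : G) ^ j = g⁻¹ * (u : G) * g := congrArg Subtype.val hj
  refine ⟨j, ?_⟩
  have h2 : (g⁻¹ * (u : G) * g) ^ k = g⁻¹ * (u : G) ^ k * g := by
    have h3 := (MulAut.conj g⁻¹ : G ≃* G).toMonoidHom.map_zpow (u : G) k
    simpa [MulAut.conj_apply] using h3.symm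
  rw [← hk', ← h2, ← hj', ← zpow_mul, ← zpow_mul, mul_comm]

private theorem nontriv_of_irr {G V : Type*} [Group G] [AddCommGroup V] [Module ℂ V]
    (ρ : Representation ℂ G V) [ρ.IsIrreducible] : Nontrivial V := by
  by_contra hV
  rw [not_nontrivial_iff_subsingleton] at hV
  have h1 : (⊥ : Subrepresentation ρ) = ⊤ :=
    Subrepresentation.toSubmodule_injective (Subsingleton.elim _ _)
  exact bot_ne_top h1

/-- Schur's lemma for a central element. -/
private theorem schur' {G V : Type*} [Group G] [AddCommGroup V] [Module ℂ V]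
    [FiniteDimensional ℂ V] (ρ : Representation ℂ G V) [ρ.IsIrreducible] (u : G)
    (hu : ∀ g, g * u = u * g) : ∃ lam : ℂ, ∀ v, ρ u v = lam • v := by
  have hnt : Nontrivial V := nontriv_of_irr ρ
  obtain ⟨lam, hlam⟩ := Module.End.exists_eigenvalue (ρ u)
  let W : Subrepresentation ρ := ⟨Module.End.eigenspace (ρ u) lam, fun g v hv => by
    rw [Module.End.mem_eigenspace_iff] at hv ⊢
    rw [← Module.End.mul_apply, ← map_mul, ← hu, map_mul, Module.End.mul_apply, hv, map_smul]⟩
  rcases eq_bot_or_eq_top W with h | h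
  · exact absurd (congrArg Subrepresentation.toSubmodule h) hlam
  · refine ⟨lam, fun v => ?_⟩
    have h1 : v ∈ W.toSubmodule := by
      rw [h]
      exact Submodule.mem_top
    exact Module.End.mem_eigenspace_iff.mp h1

theorem no_fix {G V : Type*} [Group G] [Finite G] [AddCommGroup V] [Module ℂ V]
    [FiniteDimensional ℂ V] (ρ : Representation ℂ G V) [ρ.IsIrreducible]
    (hf : Function.Injective ρ) (A : Subgroup G) [A.Normal] [IsCyclic A] {r a : ℕ} (hr : r.Prime)
    (hA : Nat.card A = r ^ a) {z : G} (hz : z ∈ A) (hz1 : z ≠ 1) {v : V} (hv : ρ z v = v) :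
    v = 0 := by
  let W : Subrepresentation ρ := ⟨Module.End.eigenspace (ρ z) 1, fun g w hw => by
    rw [Module.End.mem_eigenspace_iff, one_smul] at hw ⊢
    obtain ⟨k, hk⟩ := conj_mem A hz g
    have hn : ∀ n : ℕ, ρ (z ^ n) w = w := by
      intro n
      induction n with
      | zero => rw [pow_zero, map_one, Module.End.one_apply]
      | succ n ih => rw [pow_succ, map_mul, Module.End.mul_apply, hw, ih]
    have hk' : ρ (z ^ k) w = w := by
      obtain ⟨n, rfl | rfl⟩ := k.eq_nat_or_neg
      · rw [zpow_natCast]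
        exact hn n
      · rw [zpow_neg, zpow_natCast]
        have h1 : ρ (z ^ n)⁻¹ (ρ (z ^ n) w) = w := by
          rw [← Module.End.mul_apply, ← map_mul, inv_mul_cancel, map_one, Module.End.one_apply]
        rwa [hn] at h1
    have h2 : z * g = g * (g⁻¹ * z * g) := by group
    rw [← Module.End.mul_apply, ← map_mul, h2, hk, map_mul, Module.End.mul_apply, hk']⟩
  rcases eq_bot_or_eq_top W with h | h
  · have h1 : v ∈ W.toSubmodule := by
      change v ∈ Module.End.eigenspace (ρ z) 1
      rw [Module.End.mem_eigenspace_iff, one_smul]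
      exact hv
    rw [h] at h1
    exact (Submodule.mem_bot ℂ).1 h1
  · exfalso
    apply hz1
    apply hf
    rw [map_one]
    ext w
    have h1 : w ∈ W.toSubmodule := by
      rw [h]
      exact Submodule.mem_top
    have h2 := Module.End.mem_eigenspace_iff.mp h1
    rw [one_smul] at h2
    exact h2

/-- On a constituent of the restriction to a subgroup `C ≥ A` which centralises `A`, the elements
of `A` act by different scalars. -/
theorem scal {G V : Type*} [Group G] [Finite G] [AddCommGroup V] [Module ℂ V]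
    [FiniteDimensional ℂ V] (ρ : Representation ℂ G V) [ρ.IsIrreducible]
    (hf : Function.Injective ρ) (A : Subgroup G) [A.Normal] [IsCyclic A] {r a : ℕ} (hr : r.Prime)
    (hA : Nat.card A = r ^ a) (C : Subgroup G) (hAC : A ≤ C) (hC : C ≤ Subgroup.centralizer (A : Set G))
    {d : ℕ} (σ : Representation ℂ C (Fin d → ℂ)) [σ.IsIrreducible] (f : (Fin d → ℂ) →ₗ[ℂ] V)
    (hfi : Function.Injective f) (hfσ : ∀ g v, f (σ g v) = ρ g (f v)) :
    ∃ lam : A → ℂ, Function.Injective lam ∧ ∀ (x : A) v, σ ⟨x, hAC x.2⟩ v = lam x • v := by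
  have hex : ∀ x : A, ∃ lam : ℂ, ∀ v, σ ⟨x, hAC x.2⟩ v = lam • v := by
    intro x
    refine schur' σ ⟨x, hAC x.2⟩ fun c => ?_
    apply Subtype.ext
    exact (Subgroup.mem_centralizer_iff.1 (hC c.2) (x : G) x.2).symm
  choose lam hlam using hex
  refine ⟨lam, ?_, hlam⟩
  intro x y hxy
  by_contra hne
  have hnt : Nontrivial (Fin d → ℂ) := nontriv_of_irr σ
  obtain ⟨v, hv⟩ := exists_ne (0 : Fin d → ℂ)
  apply hv
  apply hfi
  rw [map_zero]
  have hz : (y : G)⁻¹ * x ∈ A := A.mul_mem (A.inv_mem y.2) x.2
  refine no_fix ρ hf A hr hA hz ?_ (v := f v) ?_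
  · intro h
    apply hne
    apply Subtype.ext
    exact (inv_mul_eq_one.1 h).symm
  · have h1 : ρ (x : G) (f v) = ρ (y : G) (f v) := by
      have e1 := hfσ ⟨x, hAC x.2⟩ v
      have e2 := hfσ ⟨y, hAC y.2⟩ v
      rw [hlam] at e1 e2
      rw [← hxy] at e2
      exact e1.symm.trans e2
    rw [map_mul, Module.End.mul_apply, h1, ← Module.End.mul_apply, ← map_mul, inv_mul_cancel,
      map_one, Module.End.one_apply]

end Pool.Agent.CS26
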