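import Mathlib
import Pool.Agent.CS26.Scal
import Pool.Agent.CS26.Dec
import Pool.Agent.CS26.Gal

/-!
# Step B: passage to the centraliser of a normal cyclic `r`-subgroup (helper file for MP_79850a_al)

Note 3530, step (3). `C = C_G(A)` is normal; `ψ = φ` any constituent of the restriction of `ρ` to `C`
(`exists_con`); `ψ^y (x) = ψ (y⁻¹ x y)`. For `y ∉ C` one has `ψ^y ≠ ψ` on a generator of `A` (`scal`), so
`ip ψ^y ψ = 0`. With `Ψ = ∑_{y ∈ G ⧸ C} ψ^y` (the function `y ↦ ψ^y` is constant on cosets),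
`e = C.index`, `m = ip χ_C ψ ≥ 1`: `ip (χ_C - Ψ) (χ_C - Ψ) = ip χ_C χ_C - 2 e m + e`, and
`ip χ_C χ_C = |C|⁻¹ ∑_{x ∈ C} |χ x|² ≤ e`, with equality only if `χ` vanishes off `C`. So
`χ_C = Ψ` and `χ = 0` off `C`, and `ℚ(χ) ≤ ℚ(ψ)`.
-/

set_option autoImplicit false

namespace Pool.Agent.CS26

open Pool.Agent.FV86

/-- the inner product is invariant under automorphisms -/
theorem ip_comp_equiv {G : Type*} [Group G] [Finite G] (e : G ≃* G) (f g : G → ℂ) :
    ip (f ∘ e) (g ∘ e) = ip f g := by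
  have := Fintype.ofFinite G
  rw [ip_eq, ip_eq]
  congr 1
  rw [← Equiv.sum_comp e.toEquiv (fun x => f x * g x⁻¹)]
  refine Finset.sum_congr rfl fun x _ => ?_
  simp

/-- the norm of a hermitian function -/
theorem Her.ip_self {G : Type*} [Group G] [Fintype G] {f : G → ℂ} (hf : Her f) :
    ip f f = (((Nat.card G : ℝ)⁻¹ * ∑ x, Complex.normSq (f x) : ℝ) : ℂ) := by
  rw [ip_eq]
  push_cast
  congr 1
  refine Finset.sum_congr rfl fun x _ => ?_
  rw [hf x, Complex.star_def, Complex.mul_conj]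

/-- the conjugate function `x ↦ φ (y⁻¹ x y)` on a normal subgroup -/
def cj {G : Type*} [Group G] {C : Subgroup G} [C.Normal] (φ : C → ℂ) (y : G) : C → ℂ :=
  φ ∘ (MulAut.conjNormal y⁻¹ : C ≃* C)

theorem cj_apply {G : Type*} [Group G] {C : Subgroup G} [C.Normal] (φ : C → ℂ) (y : G) (x : C) :
    cj φ y x = φ (MulAut.conjNormal y⁻¹ x) := rfl

theorem cj_cj {G : Type*} [Group G] {C : Subgroup G} [C.Normal] (φ : C → ℂ) (y z : G) (x : C) :
    cj φ y (MulAut.conjNormal z x) = cj φ (z⁻¹ * y) x := by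
  rw [cj_apply, cj_apply]
  congr 1
  rw [mul_inv_rev, inv_inv, map_mul]
  rfl

theorem stepB_aux {G : Type*} [Group G] [Finite G] {χ : G → ℂ} (hχ : IsCh χ) (hχ1 : ip χ χ = 1)
    (C : Subgroup G) [C.Normal] {φ : C → ℂ} (hφ : N1 φ) {m : ℕ} (hm : 0 < m)
    (hφm : ip (χ ∘ C.subtype) φ = m)
    (hsep : ∀ y : G, y ∉ C → ∃ x : C, cj φ y x ≠ φ x) :
    valueField χ ≤ valueField φ := by
  classical
  have := Fintype.ofFinite G
  have : Fintype C := Fintype.ofFinite C
  have : Fintype (G ⧸ C) := Fintype.ofFinite _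
  have hχh : Her χ := hχ.her
  have hφh : Her φ := hφ.1.her
  set χC : C → ℂ := χ ∘ C.subtype with hχC
  have hχCh : Her χC := fun x => by
    rw [hχC]
    exact hχh (x : G)
  -- conjugates
  have hcjh : ∀ y, Her (cj φ y) := fun y x => by
    rw [cj_apply, cj_apply, map_inv]
    exact hφh _
  have hcj1 : ∀ y, N1 (cj φ y) := fun y => by
    refine ⟨hφ.1.comp (MulEquiv.toMonoidHom (MulAut.conjNormal y⁻¹ : C ≃* C)), ?_⟩
    rw [cj, ip_comp_equiv]
    exact hφ.2
  have hχinv : ∀ y, χC ∘ (MulAut.conjNormal y⁻¹ : C ≃* C) = χC := fun y => by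
    funext x
    simp only [hχC, Function.comp_apply, Subgroup.subtype_apply, MulAut.conjNormal_apply]
    exact hχ.conj _ _
  have hχcj : ∀ y, ip χC (cj φ y) = m := fun y => by
    rw [← hφm]
    conv_lhs => rw [← hχinv y, cj]
    rw [ip_comp_equiv]
  have hne : ∀ y z : G, z⁻¹ * y ∉ C → cj φ y ≠ cj φ z := fun y z hyz h => by
    obtain ⟨x, hx⟩ := hsep _ hyz
    apply hx
    have h1 := congrFun h (MulAut.conjNormal z x)
    rw [cj_cj, cj_cj, inv_mul_cancel] at h1
    rw [h1, cj_apply]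
    simp
  have horth : ∀ q q' : G ⧸ C, ip (cj φ q.out) (cj φ q'.out) = if q = q' then 1 else 0 := by
    intro q q'
    split_ifs with h
    · rw [h]; exact (hcj1 _).2
    · refine N1.orth (hcj1 _) (hcj1 _) (hne _ _ ?_)
      intro h1
      apply h
      have h2 := (QuotientGroup.eq (s := C)).2 h1
      rw [QuotientGroup.out_eq', QuotientGroup.out_eq'] at h2
      exact h2.symm
  set Ψ : C → ℂ := ∑ q : G ⧸ C, cj φ q.out with hΨ
  have hΨh : Her Ψ := fun x => by
    rw [hΨ, Finset.sum_apply, Finset.sum_apply, star_sum]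
    exact Finset.sum_congr rfl fun q _ => hcjh _ x
  set e : ℕ := Fintype.card (G ⧸ C) with he
  have hΨΨ : ip Ψ Ψ = e := by
    conv_lhs => rw [hΨ]
    rw [ip_sum_left]
    have : ∀ q : G ⧸ C, ip (cj φ q.out) (∑ q : G ⧸ C, cj φ q.out) = 1 := fun q => by
      rw [ip_comm, ip_sum_left]
      simp_rw [horth]
      simp
    simp_rw [this]
    simp [he]
  have hΨχ : ip Ψ χC = e * m := by
    conv_lhs => rw [hΨ]
    rw [ip_sum_left]
    have : ∀ q : G ⧸ C, ip (cj φ q.out) χC = m := fun q => by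
      rw [ip_comm]; exact hχcj _
    simp_rw [this]
    simp [he]
  have hff : ip (χC - Ψ) (χC - Ψ) = ip χC χC - 2 * (e * m) + e := by
    rw [ip_sub_left, ip_sub_right, ip_sub_right, hΨΨ, ip_comm χC Ψ, hΨχ]
    ring
  -- norms
  have hG := hχh.ip_self
  rw [hχ1] at hG
  have hG' : (Nat.card G : ℝ)⁻¹ * ∑ x : G, Complex.normSq (χ x) = 1 := by exact_mod_cast hG.symm
  have hcG : (0 : ℝ) < Nat.card G := by exact_mod_cast Nat.card_pos
  have hcC : (0 : ℝ) < Nat.card C := by exact_mod_cast Nat.card_pos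
  have hSG : ∑ x : G, Complex.normSq (χ x) = Nat.card G := by
    field_simp at hG'
    exact hG'
  have hcard : (Nat.card G : ℝ) = e * Nat.card C := by
    have h1 := Subgroup.card_eq_card_quotient_mul_card_subgroup C
    rw [h1, he, Nat.card_eq_fintype_card]
    push_cast
    rfl
  have hC := hχCh.ip_self
  have hsplit : ∑ x : G, Complex.normSq (χ x) =
      ∑ x : C, Complex.normSq (χC x) + ∑ x ∈ Finset.univ.filter (fun x : G => x ∉ C),
        Complex.normSq (χ x) := by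
    rw [← Finset.sum_filter_add_sum_filter_not Finset.univ (fun x : G => x ∈ C)]
    congr 1
    rw [Finset.sum_subtype (Finset.univ.filter (fun x : G => x ∈ C)) (p := fun x : G => x ∈ C)
      (by intro x; simp) (fun x => Complex.normSq (χ x))]
    rfl
  have hout0 : 0 ≤ ∑ x ∈ Finset.univ.filter (fun x : G => x ∉ C), Complex.normSq (χ x) :=
    Finset.sum_nonneg fun x _ => Complex.normSq_nonneg _
  set SC : ℝ := ∑ x : C, Complex.normSq (χC x) with hSC
  set SO : ℝ := ∑ x ∈ Finset.univ.filter (fun x : G => x ∉ C), Complex.normSq (χ x) with hSO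
  have hSC' : SC = e * Nat.card C - SO := by linarith
  have hnorm : (Nat.card C : ℝ)⁻¹ * SC = e - (Nat.card C : ℝ)⁻¹ * SO := by
    rw [hSC']
    field_simp
  have hre : (ip (χC - Ψ) (χC - Ψ)).re = (Nat.card C : ℝ)⁻¹ * SC - 2 * (e * m) + e := by
    rw [hff, hC]
    have : ((((Nat.card C : ℝ)⁻¹ * SC : ℝ) : ℂ) - 2 * ((e : ℂ) * m) + e) =
        (((Nat.card C : ℝ)⁻¹ * SC - 2 * (e * m) + e : ℝ) : ℂ) := by
      push_cast; ring
    rw [this, Complex.ofReal_re]
  have hm1 : (1 : ℝ) ≤ m := by exact_mod_cast hm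
  have he0 : (0 : ℝ) ≤ e := Nat.cast_nonneg _
  have hSO1 : 0 ≤ (Nat.card C : ℝ)⁻¹ * SO := by positivity
  have hle : (ip (χC - Ψ) (χC - Ψ)).re ≤ 0 := by
    rw [hre, hnorm]
    nlinarith
  have hzero := (hχCh.sub hΨh).eq_zero hle
  have hSO2 : SO = 0 := by
    have h1 : (ip (χC - Ψ) (χC - Ψ)).re = 0 := by
      rw [hzero, ip_eq]
      simp
    rw [hre, hnorm] at h1
    have h2 : (Nat.card C : ℝ)⁻¹ * SO = 0 := by nlinarith
    rcases mul_eq_zero.1 h2 with h3 | h3
    · exact absurd h3 (inv_ne_zero hcC.ne')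
    · exact h3
  -- conclusion
  unfold valueField
  rw [IntermediateField.adjoin_le_iff]
  rintro _ ⟨x, rfl⟩
  by_cases hx : x ∈ C
  · have h1 : χ x = Ψ ⟨x, hx⟩ := by
      have := congrFun hzero ⟨x, hx⟩
      simp only [Pi.sub_apply, Pi.zero_apply] at this
      rw [sub_eq_zero] at this
      exact this
    rw [h1, hΨ, Finset.sum_apply]
    exact sum_mem fun q _ => mem_valueField φ _
  · have h1 : χ x = 0 := by
      have := (Finset.sum_eq_zero_iff_of_nonneg (fun x _ => Complex.normSq_nonneg _)).1 hSO2 x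
        (by simp [hx])
      exact Complex.normSq_eq_zero.1 this
    rw [h1]
    exact zero_mem _

theorem stepB {G V : Type*} [Group G] [Finite G] [AddCommGroup V] [Module ℂ V]
    [FiniteDimensional ℂ V] (ρ : Representation ℂ G V) [ρ.IsIrreducible]
    (hf : Function.Injective ρ) (A : Subgroup G) [A.Normal] [IsCyclic A] {r a : ℕ} (hr : r.Prime)
    (hA : Nat.card A = r ^ a) :
    ∃ φ, Con (ρ.comp (Subgroup.centralizer (A : Set G)).subtype) φ ∧
      valueField ρ.character ≤ valueField φ := by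
  have hV : Nontrivial V := by
    by_contra h
    rw [not_nontrivial_iff_subsingleton] at h
    have h1 := (n1_of ρ).one
    obtain ⟨k, hk, hk1⟩ := h1
    have : Module.finrank ℂ V = 0 := Module.finrank_zero_of_subsingleton
    rw [Representation.char_one, this] at hk1
    have : (k : ℂ) = 0 := by rw [← hk1]; simp
    exact hk.ne' (by exact_mod_cast this)
  obtain ⟨φ, hφ⟩ := exists_con (ρ.comp (Subgroup.centralizer (A : Set G)).subtype)
  refine ⟨φ, hφ, ?_⟩
  obtain ⟨h1, m, hm, hφm⟩ := hφ.pos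
  refine stepB_aux (isCh_of ρ) (n1_of ρ).2 _ h1 hm hφm ?_
  intro y hy
  obtain ⟨d, σ, hσ, hσφ, f, hfi, hfσ⟩ := hφ
  have hAC : A ≤ Subgroup.centralizer (A : Set G) := by
    have : IsMulCommutative A := ⟨⟨fun a b => by
      exact (IsCyclic.commGroup (α := A)).mul_comm a b⟩⟩
    exact Subgroup.le_centralizer A
  obtain ⟨lam, hlam, hlam1⟩ := scal ρ hf A hr hA (Subgroup.centralizer (A : Set G)) hAC le_rfl σ f
    hfi hfσ
  have hval : ∀ x : A, φ ⟨x, hAC x.2⟩ = d * lam x := by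
    intro x
    rw [← hσφ]
    have : σ ⟨x, hAC x.2⟩ = lam x • LinearMap.id := by
      ext1
      ext
      simp [hlam1]
    rw [Representation.character, this]
    simp [mul_comm]
  have hd : (d : ℂ) ≠ 0 := by
    obtain ⟨k, hk, hk1⟩ := h1.one
    have h2 := hval 1
    have h3 : φ 1 = d := by
      rw [← hσφ, Representation.char_one]
      simp
    rw [← h3, hk1]
    exact_mod_cast hk.ne'
  rw [Subgroup.mem_centralizer_iff] at hy
  push Not at hy
  obtain ⟨z, hz, hzy⟩ := hy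
  refine ⟨⟨z, hAC hz⟩, ?_⟩
  intro h
  have hz' : y⁻¹ * z * y⁻¹⁻¹ ∈ A := ‹A.Normal›.conj_mem z hz y⁻¹
  have h2 : cj φ y ⟨z, hAC hz⟩ = φ ⟨y⁻¹ * z * y⁻¹⁻¹, hAC hz'⟩ := by
    rw [cj_apply]
    congr 1
  rw [h2, hval ⟨_, hz'⟩, hval ⟨z, hz⟩] at h
  have h3 := hlam (mul_left_cancel₀ hd h)
  have h4 : y⁻¹ * z * y⁻¹⁻¹ = z := congrArg Subtype.val h3
  apply hzy
  rw [inv_inv] at h4
  calc z * y = y * (y⁻¹ * z * y) := by group
    _ = y * z := by rw [h4]

end Pool.Agent.CS26
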