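import Mathlib
import Pool.Agent.CS26.Scal

/-!
# Step C: a central cyclic `r`-subgroup (helper file for MP_79850a_al)

A generator `u` of `A` acts as a scalar `lam` (Schur) of order `r ^ a` (`ρ` is faithful). Let `z` be an
eigenvalue of `ρ g` whose order is divisible by `d'`. If `r ^ e` divides `orderOf z`, take `g, z`. Otherwise
take `u * g` and `lam * z`: the `r'`-part of the order is that of `z`, and the `r`-part is `r ^ a`
(`z ^ (orderOf z / r-part)` and so on, or `Commute.orderOf_mul_eq_mul_orderOf_of_coprime`).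
-/

set_option autoImplicit false

namespace Pool.Agent.CS26

open Pool.Agent.FV86

/-- Schur's lemma for a central element. -/
private theorem schur {G V : Type*} [Group G] [AddCommGroup V] [Module ℂ V]
    [FiniteDimensional ℂ V] (ρ : Representation ℂ G V) [ρ.IsIrreducible] (u : G)
    (hu : ∀ g, g * u = u * g) : ∃ lam : ℂ, ∀ v, ρ u v = lam • v := by
  have hnt : Nontrivial V := by
    by_contra hV
    rw [not_nontrivial_iff_subsingleton] at hV
    have h1 : (⊥ : Subrepresentation ρ) = ⊤ :=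
      Subrepresentation.toSubmodule_injective (Subsingleton.elim _ _)
    exact bot_ne_top h1
  obtain ⟨lam, hlam⟩ := Module.End.exists_eigenvalue (ρ u)
  let W : Subrepresentation ρ := ⟨Module.End.eigenspace (ρ u) lam, fun g v hv => by
    rw [Module.End.mem_eigenspace_iff] at hv ⊢
    rw [← Module.End.mul_apply, ← map_mul, ← hu, map_mul, Module.End.mul_apply, hv, map_smul]⟩
  rcases eq_bot_or_eq_top W with h | h
  · exact absurd (congrArg Subrepresentation.toSubmodule h) hlam
  · refine ⟨lam, fun v => ?_⟩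
    have h1 : v ∈ W.toSubmodule := by
      rw [h]
      exact Submodule.mem_top
    exact Module.End.mem_eigenspace_iff.mp h1

private theorem num {r a e d' : ℕ} (hr : r.Prime) (he : e ≤ a) (hd : ¬ r ∣ d') {lam z : ℂ}
    (hlam : orderOf lam = r ^ a) (hz : 0 < orderOf z) (hdz : d' ∣ orderOf z)
    (hez : ¬ r ^ e ∣ orderOf z) : r ^ e * d' ∣ orderOf (lam * z) := by
  obtain ⟨v, m, hm, hn⟩ := Nat.exists_eq_pow_mul_and_not_dvd hz.ne' r hr.ne_one
  have hve : v < e := by
    by_contra hcon
    apply hez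
    rw [hn]
    exact (pow_dvd_pow r (not_lt.mp hcon)).mul_right m
  obtain ⟨b, rfl⟩ : ∃ b, a = b + 1 := ⟨a - 1, by omega⟩
  have hzm : ∀ k, v ≤ k → z ^ (m * r ^ k) = 1 := by
    intro k hk
    apply orderOf_dvd_iff_pow_eq_one.mp
    rw [hn, mul_comm m]
    exact Nat.mul_dvd_mul_right (pow_dvd_pow r hk) m
  have hx : orderOf ((lam * z) ^ m) = r ^ (b + 1) := by
    have := Fact.mk hr
    refine orderOf_eq_prime_pow ?_ ?_
    · rw [← pow_mul, mul_pow, hzm b (by omega), mul_one]
      intro hcon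
      have h1 := orderOf_dvd_iff_pow_eq_one.mpr hcon
      rw [hlam, pow_succ, mul_comm m] at h1
      exact hm (Nat.dvd_of_mul_dvd_mul_left (pow_pos hr.pos b) h1)
    · rw [← pow_mul, mul_pow, hzm (b + 1) (by omega), mul_one, mul_comm m, pow_mul, ← hlam,
        pow_orderOf_eq_one, one_pow]
  have hre : r ^ e ∣ orderOf (lam * z) :=
    (pow_dvd_pow r he).trans (hx ▸ orderOf_pow_dvd m)
  have hdd : d' ∣ orderOf (lam * z) := by
    have h1 : z ^ (orderOf (lam * z) * r ^ (b + 1)) = 1 := by
      have h2 : (lam * z) ^ (orderOf (lam * z) * r ^ (b + 1)) = 1 := by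
        rw [pow_mul, pow_orderOf_eq_one, one_pow]
      rw [mul_pow, mul_comm (orderOf (lam * z)), pow_mul lam, ← hlam, pow_orderOf_eq_one, one_pow,
        one_mul, hlam] at h2
      rw [mul_comm]
      exact h2
    have h3 : d' ∣ orderOf (lam * z) * r ^ (b + 1) :=
      hdz.trans (orderOf_dvd_iff_pow_eq_one.mpr h1)
    exact Nat.Coprime.dvd_of_dvd_mul_right
      (((Nat.Prime.coprime_iff_not_dvd hr).mpr hd).symm.pow_right _) h3
  exact Nat.Coprime.mul_dvd_of_dvd_of_dvd
    (((Nat.Prime.coprime_iff_not_dvd hr).mpr hd).pow_left _) hre hdd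

theorem stepC {G V : Type*} [Group G] [Finite G] [AddCommGroup V] [Module ℂ V]
    [FiniteDimensional ℂ V] (ρ : Representation ℂ G V) [ρ.IsIrreducible]
    (hf : Function.Injective ρ) (A : Subgroup G) [IsCyclic A] (hAc : A ≤ Subgroup.center G)
    {r a e d' : ℕ} (hr : r.Prime) (hA : Nat.card A = r ^ a) (he : e ≤ a) (hd : ¬ r ∣ d')
    (h : ∃ g z, Module.End.HasEigenvalue (ρ g) z ∧ d' ∣ orderOf z) :
    ∃ g z, Module.End.HasEigenvalue (ρ g) z ∧ r ^ e * d' ∣ orderOf z := by
  obtain ⟨u, hu⟩ := IsCyclic.exists_generator (α := A)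
  have huo : orderOf (u : G) = r ^ a := by
    rw [Subgroup.orderOf_coe, orderOf_eq_card_of_forall_mem_zpowers hu, hA]
  obtain ⟨lam, hlam⟩ := schur ρ (u : G) (fun g => Subgroup.mem_center_iff.mp (hAc u.2) g)
  obtain ⟨g, z, hgz, hdz⟩ := h
  obtain ⟨v, hv⟩ := hgz.exists_hasEigenvector
  have hpow : ∀ k w, ρ ((u : G) ^ k) w = lam ^ k • w := by
    intro k w
    induction k with
    | zero => simp
    | succ k ih =>
      rw [pow_succ', map_mul, Module.End.mul_apply, ih, hlam, smul_smul, pow_succ']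
  have hlo : orderOf lam = r ^ a := by
    apply Nat.dvd_antisymm
    · apply orderOf_dvd_of_pow_eq_one
      have h1 := hpow (r ^ a) v
      rw [← huo, pow_orderOf_eq_one, map_one, Module.End.one_apply] at h1
      have h2 : (lam ^ orderOf (u : G) - 1) • v = 0 := by
        rw [sub_smul, ← h1, one_smul, sub_self]
      rcases smul_eq_zero.mp h2 with h3 | h3
      · rw [← huo]
        exact sub_eq_zero.mp h3
      · exact absurd h3 hv.2
    · rw [← huo]
      apply orderOf_dvd_of_pow_eq_one
      apply hf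
      rw [map_one]
      ext w
      rw [hpow, pow_orderOf_eq_one, one_smul, Module.End.one_apply]
  have hz0 : 0 < orderOf z := Nat.pos_of_dvd_of_pos (orderOf_dvd ρ g hgz) (orderOf_pos g)
  by_cases hez : r ^ e ∣ orderOf z
  · exact ⟨g, z, hgz, Nat.Coprime.mul_dvd_of_dvd_of_dvd
      (((Nat.Prime.coprime_iff_not_dvd hr).mpr hd).pow_left _) hez hdz⟩
  · refine ⟨(u : G) * g, lam * z, ?_, num hr he hd hlo hz0 hdz hez⟩
    refine Module.End.hasEigenvalue_of_hasEigenvector (x := v)
      ⟨Module.End.mem_eigenspace_iff.mpr ?_, hv.2⟩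
    rw [map_mul, Module.End.mul_apply, hv.apply_eq_smul, hlam, smul_smul]

end Pool.Agent.CS26
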