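import Mathlib
import Pool.Agent.FV86.Stmt

/-!
# Cyclic Sylow subgroups and fields of values: the definition used in the statements
-/

set_option autoImplicit false

namespace Pool.Agent.CS26

open Pool.Agent.FV86

open Classical in
/-- The primes `p ∣ d` for which some Sylow `p`-subgroup of `G` is not cyclic. -/
noncomputable def badPrimes (G : Type*) [Group G] (d : ℕ) : Finset ℕ :=
  d.primeFactors.filter fun p => NoncyclicSylow G p

end Pool.Agent.CS26
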