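import Mathlib
import Pool.Agent.CS26.StepA
import Pool.Agent.CS26.StepB
import Pool.Agent.CS26.StepC
import Pool.Agent.CS26.Quot
import Pool.Agent.CS26.Rel
import Pool.Agent.CS26.Stmt

/-!
# Main theorem: cyclic Sylow subgroups (helper file for MP_79850a_al)
-/

set_option autoImplicit false

namespace Pool.Agent.CS26

open Pool.Agent.FV86

universe u

theorem mem_badPrimes {G : Type*} [Group G] {d p : ℕ} :
    p ∈ badPrimes G d ↔ p ∈ d.primeFactors ∧ NoncyclicSylow G p := by
  classical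
  unfold badPrimes
  rw [Finset.mem_filter]

theorem badPrimes_sub {G : Type*} [Group G] [Finite G] (H : Subgroup G) {d p : ℕ}
    (h : p ∈ badPrimes H d) : p ∈ badPrimes G d := by
  rw [mem_badPrimes] at h ⊢
  refine ⟨h.1, ?_⟩
  have hp := Nat.prime_of_mem_primeFactors h.1
  by_contra hc
  exact (cycSyl_iff hp).1 (cycSyl_sub ((cycSyl_iff hp).2 hc) H) h.2

theorem badPrimes_quot {G : Type*} [Group G] [Finite G] (N : Subgroup G) [N.Normal] {d p : ℕ}
    (h : p ∈ badPrimes (G ⧸ N) d) : p ∈ badPrimes G d := by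
  rw [mem_badPrimes] at h ⊢
  refine ⟨h.1, ?_⟩
  have hp := Nat.prime_of_mem_primeFactors h.1
  by_contra hc
  exact (cycSyl_iff hp).1 (cycSyl_quot hp ((cycSyl_iff hp).2 hc) N) h.2

theorem badPrimes_mono {G : Type*} [Group G] {d d' p : ℕ} (hd : d ≠ 0) (hdd : d' ∣ d)
    (h : p ∈ badPrimes G d') : p ∈ badPrimes G d := by
  rw [mem_badPrimes] at h ⊢
  exact ⟨Nat.primeFactors_mono hdd hd h.1, h.2⟩

/-- Eigenvalues of a subrepresentation. -/
theorem eig_of_embed {G V W : Type*} [Group G] [AddCommGroup V] [Module ℂ V] [AddCommGroup W]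
    [Module ℂ W] {ρ : Representation ℂ G V} {σ : Representation ℂ G W} (f : W →ₗ[ℂ] V)
    (hf : Function.Injective f) (hfσ : ∀ g v, f (σ g v) = ρ g (f v)) {g : G} {z : ℂ}
    (hz : Module.End.HasEigenvalue (σ g) z) : Module.End.HasEigenvalue (ρ g) z := by
  obtain ⟨v, hv⟩ := hz.exists_hasEigenvector
  refine Module.End.hasEigenvalue_of_hasEigenvector (x := f v) ⟨?_, ?_⟩
  · rw [Module.End.mem_eigenspace_iff, ← hfσ, hv.apply_eq_smul, map_smul]
  · intro h
    exact hv.2 (hf (by rw [h, map_zero]))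

theorem condF_dvd {K : IntermediateField ℚ ℂ} {n : ℕ} (hn : 0 < n) (h : K ≤ cyc n) :
    condF K ∣ n := by
  have hne : {m : ℕ | 0 < m ∧ K ≤ cyc m}.Nonempty := ⟨n, hn, h⟩
  have h1 := Nat.sInf_mem hne
  have h2 : 0 < condF K := h1.1
  have h3 : K ≤ cyc (condF K) := h1.2
  have h4 : K ≤ cyc ((condF K).gcd n) := by
    rw [← cyc_inf h2 hn]
    exact le_inf h3 h
  have h5 : condF K ≤ (condF K).gcd n :=
    Nat.sInf_le ⟨Nat.gcd_pos_of_pos_left _ h2, h4⟩
  have h6 : (condF K).gcd n = condF K :=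
    le_antisymm (Nat.le_of_dvd h2 (Nat.gcd_dvd_left _ _)) h5
  rw [← h6]
  exact Nat.gcd_dvd_right _ _

theorem condF_dvd_conductor {G V : Type*} [Group G] [Finite G] [AddCommGroup V] [Module ℂ V]
    [FiniteDimensional ℂ V] (ρ : Representation ℂ G V) {K : IntermediateField ℚ ℂ}
    (hK : K ≤ valueField ρ.character) : condF K ∣ conductor ρ.character :=
  condF_dvd (conductor_pos ρ) (hK.trans (valueField_le_conductor ρ))

theorem card_lt_of_ne_top {G : Type*} [Group G] [Finite G] {H : Subgroup G} (h : H ≠ ⊤) :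
    Nat.card H < Nat.card G := by
  have h1 : Nat.card H ≤ Nat.card G := Subgroup.card_le_card_group H
  refine lt_of_le_of_ne h1 fun h2 => h ?_
  exact Subgroup.eq_top_of_card_eq H h2

theorem unitary_ordCompl {n d r : ℕ} (hn : n ≠ 0) (hd : d ∣ n) (hcop : d.Coprime (n / d))
    (hr : r.Prime) : (ordCompl[r] d).Coprime (n / ordCompl[r] d) := by
  have hd0 : d ≠ 0 := fun h => hn (by rw [h, zero_dvd_iff] at hd; exact hd)
  have h1 : ordCompl[r] d ∣ d := Nat.ordCompl_dvd d r
  have h2 : n / ordCompl[r] d = ordProj[r] d * (n / d) := by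
    have h3 : ordProj[r] d * ordCompl[r] d = d := Nat.ordProj_mul_ordCompl_eq_self d r
    have h4 : 0 < ordCompl[r] d := Nat.ordCompl_pos r hd0
    apply Nat.div_eq_of_eq_mul_left h4
    rw [mul_right_comm, h3, Nat.mul_div_cancel' hd]
  rw [h2]
  refine Nat.Coprime.mul_right ?_ (Nat.Coprime.coprime_dvd_left h1 hcop)
  refine Nat.Coprime.pow_right _ ?_
  exact (Nat.coprime_ordCompl hr hd0).symm

theorem main_fin {ℓ : ℕ} (hℓ : ℓ.Prime) (K : IntermediateField ℚ ℂ) (ψ : (K ≃ₐ[ℚ] K) →* ℂˣ)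
    (N : ℕ) : ∀ (G : Type u) [Group G] [Finite G] (_ : Nat.card G = N) (k : ℕ)
      (ρ : Representation ℂ G (Fin k → ℂ)) (_ : ρ.IsIrreducible) (_ : K ≤ valueField ρ.character)
      (d : ℕ) (_ : d ∣ condF K) (_ : d.Coprime (condF K / d))
      (_ : ∀ p ∈ badPrimes G d, (∃ s ∈ fixer K (cyc (condF K / p)), ψ s ≠ 1) ∨
        ℓ ∣ Nat.card (fixer K (cyc (condF K / p)))),
      ∃ g z, Module.End.HasEigenvalue (ρ g) z ∧ d ∣ orderOf z := by
  induction N using Nat.strong_induction_on with
  | _ N ih =>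
  intro G _ _ hN k ρ hirr hK d
  haveI := hirr
  induction d using Nat.strong_induction_on with
  | _ d ihd =>
  intro hd hcop hψ
  have hcK : condF K ∣ conductor ρ.character := condF_dvd_conductor ρ hK
  have hc0 : 0 < conductor ρ.character := conductor_pos ρ
  have hK0 : condF K ≠ 0 := fun h => by
    rw [h, zero_dvd_iff] at hcK
    omega
  have hd0 : d ≠ 0 := fun h => hK0 (by rw [h, zero_dvd_iff] at hd; exact hd)
  by_cases hker : ρ.ker = ⊥
  · have hf : Function.Injective ρ := (MonoidHom.ker_eq_bot_iff ρ).1 hker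
    by_cases hall : ∀ p ∈ d.primeFactors, NoncyclicSylow G p
    · exact core_rel ρ hℓ K hK hd hcop ψ fun p hp => hψ p (mem_badPrimes.2 ⟨hp, hall p hp⟩)
    · push Not at hall
      obtain ⟨r, hr, hcyc⟩ := hall
      have hrp : r.Prime := Nat.prime_of_mem_primeFactors hr
      have hrd : r ∣ d := Nat.dvd_of_mem_primeFactors hr
      have hc : CycSyl G r := (cycSyl_iff hrp).2 hcyc
      have hrc : r ∈ (conductor ρ.character).primeFactors :=
        Nat.mem_primeFactors.2 ⟨hrp, (hrd.trans hd).trans hcK, hc0.ne'⟩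
      have hra : r ^ (conductor ρ.character).factorization r ∣ Nat.card G :=
        (Nat.ordProj_dvd _ r).trans (conductor_dvd ρ)
      haveI : Fact r.Prime := ⟨hrp⟩
      obtain ⟨Q, hQ⟩ := Sylow.exists_subgroup_card_pow_prime r hra
      by_cases hn : Subgroup.normalizer (Q : Set G) = ⊤
      · haveI hnorm : Q.Normal := Subgroup.normalizer_eq_top_iff.1 hn
        haveI : IsCyclic Q := hc Q (IsPGroup.of_card hQ)
        by_cases hC : Subgroup.centralizer (Q : Set G) = ⊤
        · have hQc : Q ≤ Subgroup.center G := by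
            intro x hx
            rw [Subgroup.mem_center_iff]
            intro y
            have hy : y ∈ Subgroup.centralizer (Q : Set G) := by rw [hC]; exact Subgroup.mem_top y
            rw [Subgroup.mem_centralizer_iff] at hy
            exact (hy x hx).symm
          have hlt : ordCompl[r] d < d :=
            Nat.div_lt_self (Nat.pos_of_ne_zero hd0)
              (Nat.one_lt_pow (hrp.factorization_pos_of_dvd hd0 hrd).ne' hrp.one_lt)
          have hsub : ordCompl[r] d ∣ d := Nat.ordCompl_dvd d r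
          have h1 := ihd _ hlt (hsub.trans hd) (unitary_ordCompl hK0 hd hcop hrp)
            (fun p hp => hψ p (badPrimes_mono hd0 hsub hp))
          have he : d.factorization r ≤ (conductor ρ.character).factorization r :=
            (Nat.factorization_le_iff_dvd hd0 hc0.ne').2 (hd.trans hcK) r
          have h2 := stepC ρ hf Q hQc hrp hQ he (Nat.not_dvd_ordCompl hrp hd0) h1
          rwa [Nat.ordProj_mul_ordCompl_eq_self] at h2
        · obtain ⟨φ, ⟨k', σ, hσ, hσφ, f, hfi, hfσ⟩, hle⟩ := stepB ρ hf Q hrp hQ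
          rw [← hσφ] at hle
          obtain ⟨g, z, hz, hdz⟩ := ih _ (hN ▸ card_lt_of_ne_top hC)
            (Subgroup.centralizer (Q : Set G)) rfl k' σ hσ (hK.trans hle) d hd hcop
            (fun p hp => hψ p (badPrimes_sub _ hp))
          exact ⟨g, z, eig_of_embed (ρ := ρ.comp (Subgroup.centralizer (Q : Set G)).subtype) f hfi
            hfσ hz, hdz⟩
      · obtain ⟨φ, ⟨k', σ, hσ, hσφ, f, hfi, hfσ⟩, hle⟩ := stepA ρ hrc hc Q hQ
        rw [← hσφ] at hle
        obtain ⟨g, z, hz, hdz⟩ := ih _ (hN ▸ card_lt_of_ne_top hn)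
          (Subgroup.normalizer (Q : Set G)) rfl k' σ hσ (hK.trans hle) d hd hcop
          (fun p hp => hψ p (badPrimes_sub _ hp))
        exact ⟨g, z, eig_of_embed (ρ := ρ.comp (Subgroup.normalizer (Q : Set G)).subtype) f hfi
          hfσ hz, hdz⟩
  · obtain ⟨ρ', h1, h2, h3, h4, h5⟩ := exists_quot ρ
    have hlt : Nat.card (G ⧸ ρ.ker) < N := by
      rw [← hN, ← Subgroup.index_eq_card]
      have h6 := Subgroup.card_mul_index ρ.ker
      have h7 : 1 < Nat.card ρ.ker := by
        rw [Subgroup.one_lt_card_iff_ne_bot]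
        exact hker
      have h8 : 0 < ρ.ker.index := Nat.pos_of_ne_zero Subgroup.index_ne_zero_of_finite
      nlinarith
    obtain ⟨g, z, hz, hdz⟩ := ih _ hlt (G ⧸ ρ.ker) rfl k ρ' h1 (by rw [h4]; exact hK) d hd hcop
      (fun p hp => hψ p (badPrimes_quot _ hp))
    obtain ⟨g, rfl⟩ := QuotientGroup.mk_surjective g
    rw [h3] at hz
    exact ⟨g, z, hz, hdz⟩

theorem main_rel {G V : Type*} [Group G] [Finite G] [AddCommGroup V] [Module ℂ V]
    [FiniteDimensional ℂ V] (ρ : Representation ℂ G V) [ρ.IsIrreducible] {ℓ : ℕ} (hℓ : ℓ.Prime)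
    (K : IntermediateField ℚ ℂ) (hK : K ≤ valueField ρ.character) {d : ℕ} (hd : d ∣ condF K)
    (hcop : d.Coprime (condF K / d)) (ψ : (K ≃ₐ[ℚ] K) →* ℂˣ)
    (hψ : ∀ p ∈ badPrimes G d, (∃ s ∈ fixer K (cyc (condF K / p)), ψ s ≠ 1) ∨
      ℓ ∣ Nat.card (fixer K (cyc (condF K / p)))) :
    ∃ g z, Module.End.HasEigenvalue (ρ g) z ∧ d ∣ orderOf z := by
  haveI hnt : Nontrivial V := by
    by_contra hcon
    rw [not_nontrivial_iff_subsingleton] at hcon
    have h1 : (⊥ : Subrepresentation ρ) = ⊤ := by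
      apply SetLike.ext
      intro x
      have h2 : x = 0 := Subsingleton.elim _ _
      subst h2
      exact ⟨fun _ => (⊤ : Subrepresentation ρ).toSubmodule.zero_mem,
        fun _ => (⊥ : Subrepresentation ρ).toSubmodule.zero_mem⟩
    exact bot_ne_top h1
  obtain ⟨φ, k, σ, hσ, hσφ, f, hfi, hfσ⟩ := exists_con ρ
  haveI := hσ
  let F : Representation.IntertwiningMap σ ρ :=
    LinearMap.intertwiningMap_of_isIntertwiningMap σ ρ f hfσ
  have hF : Function.Bijective F := by
    rcases Representation.IsIrreducible.bijective_or_eq_zero F with h | h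
    · exact h
    · exfalso
      have h3 : ∀ v, f v = 0 := fun v => by
        have := DFunLike.congr_fun h v
        exact this
      haveI : Subsingleton (Fin k → ℂ) := ⟨fun a b => hfi (by rw [h3, h3])⟩
      have h1 : (⊥ : Subrepresentation σ) = ⊤ := by
        apply SetLike.ext
        intro x
        have h2 : x = 0 := Subsingleton.elim _ _
        subst h2
        exact ⟨fun _ => (⊤ : Subrepresentation σ).toSubmodule.zero_mem,
          fun _ => (⊥ : Subrepresentation σ).toSubmodule.zero_mem⟩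
      exact bot_ne_top h1
  have hchar : σ.character = ρ.character := Representation.char_iso (F.ofBijective hF)
  obtain ⟨g, z, hz, hdz⟩ := main_fin hℓ K ψ _ G rfl k σ hσ (by rw [hchar]; exact hK) d hd hcop hψ
  exact ⟨g, z, eig_of_embed f hfi hfσ hz, hdz⟩

theorem main_dvd {G V : Type*} [Group G] [Finite G] [AddCommGroup V] [Module ℂ V]
    [FiniteDimensional ℂ V] (ρ : Representation ℂ G V) [ρ.IsIrreducible] {d : ℕ}
    (hd : d ∣ conductor ρ.character) (h6 : (badPrimes G d).card ≤ 6) :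
    ∃ g z, Module.End.HasEigenvalue (ρ g) z ∧ d ∣ orderOf z := by
  have hc := conductor_pos ρ
  obtain ⟨e, hde, hen, hcop, hpf⟩ := exists_unitary hc hd
  have he0 : 0 < e := Nat.pos_of_dvd_of_pos hen hc
  haveI : FiniteDimensional ℚ (valueField ρ.character) :=
    finiteDimensional_of_le Nat.card_pos (valueField_le ρ)
  obtain ⟨ℓ, hℓ, ψ, hψ⟩ :=
    exists_psi (A := valueField ρ.character ≃ₐ[ℚ] valueField ρ.character)
      (comm_of_le Nat.card_pos (valueField_le ρ)) (badPrimes G d)
      (inertia ρ.character) (fun p hp => inertia_ne ρ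
        (Nat.primeFactors_mono hd hc.ne' (mem_badPrimes.1 hp).1)) (Or.inl h6)
  obtain ⟨g, z, hz, hez⟩ := main_rel ρ hℓ (valueField ρ.character) le_rfl (d := e) hen hcop ψ
    (fun p hp => by
      have h1 : p ∈ badPrimes G d := by
        rw [mem_badPrimes] at hp ⊢
        exact ⟨hpf ▸ hp.1, hp.2⟩
      have h2 := hψ p h1
      rw [← inertia_eq] at h2
      exact h2)
  exact ⟨g, z, hz, hde.trans hez⟩

end Pool.Agent.CS26
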