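import Mathlib
import Pool.Agent.CS26.Main

/-!
# Final form of the theorems on cyclic Sylow subgroups (helper file for MP_79850a_al)
-/

set_option autoImplicit false

namespace Pool.Agent.CS26

open Pool.Agent.FV86

theorem fin_main {G V : Type*} [Group G] [Finite G] [AddCommGroup V] [Module ℂ V]
    [FiniteDimensional ℂ V] (ρ : Representation ℂ G V) [ρ.IsIrreducible]
    (h1 : 1 < Module.finrank ℂ V) :
    (HasSmallCharacter ρ ∧ (∃ g : G, orderOf g = conductor ρ.character) ∧
      (valueField ρ.character).relfinrank (cyc (conductor ρ.character)) ≤ Module.finrank ℂ V) ∨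
    ExceptionalFamily (badPrimes G (conductor ρ.character))
      (fun p => fixer (valueField ρ.character) (cyc (conductor ρ.character / p))) := by
  by_cases hex : ∃ ℓ : ℕ, ℓ.Prime ∧
      ∃ ψ : (valueField ρ.character ≃ₐ[ℚ] valueField ρ.character) →* ℂˣ,
      ∀ p ∈ badPrimes G (conductor ρ.character),
        (∃ s ∈ inertia ρ.character p, ψ s ≠ 1) ∨ ℓ ∣ Nat.card (inertia ρ.character p)
  · obtain ⟨ℓ, hℓ, ψ, hψ⟩ := hex
    obtain ⟨g, z, hz, hd⟩ := main_rel ρ hℓ (valueField ρ.character) le_rfl
      (d := conductor ρ.character) dvd_rfl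
      (by
        have h2 : condF (valueField ρ.character) = conductor ρ.character := rfl
        rw [h2, Nat.div_self (conductor_pos ρ)]
        exact Nat.coprime_one_right _) ψ
      (fun p hp => by
        have h2 := hψ p hp
        rw [← inertia_eq] at h2
        exact h2)
    exact Or.inl (good ρ h1 g hz hd)
  · right
    have hfin : FiniteDimensional ℚ (valueField ρ.character) :=
      finiteDimensional_of_le Nat.card_pos (valueField_le ρ)
    have hcomb := exists_psi (A := valueField ρ.character ≃ₐ[ℚ] valueField ρ.character)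
      (comm_of_le Nat.card_pos (valueField_le ρ)) (badPrimes G (conductor ρ.character))
      (inertia ρ.character) (fun p hp => inertia_ne ρ (mem_badPrimes.1 hp).1)
    refine ⟨?_, ?_, ?_⟩
    · by_contra hc
      exact hex (hcomb (Or.inl (by omega)))
    · by_contra hc
      apply hex
      apply hcomb
      right
      by_cases h2 : ∃ m : ℕ, m.Prime ∧
          ∃ P : Sylow m (valueField ρ.character ≃ₐ[ℚ] valueField ρ.character), ¬ IsCyclic P
      · obtain ⟨m, hm, hP⟩ := h2
        refine ⟨m, hm, fun m' hm' hne P' => ?_⟩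
        by_contra hP'
        exact hc ⟨m', m, hm', hm, hne, ⟨P', hP'⟩, hP⟩
      · refine ⟨2, Nat.prime_two, fun m' hm' _ P' => ?_⟩
        by_contra hP'
        exact h2 ⟨m', hm', P', hP'⟩
    · intro ℓ hℓ ψ
      have hblock : ∃ p ∈ badPrimes G (conductor ρ.character),
          (∀ σ ∈ inertia ρ.character p,
            (ψ : (valueField ρ.character ≃ₐ[ℚ] valueField ρ.character) →* ℂˣ) σ = 1) ∧
          ¬ ℓ ∣ Nat.card (inertia ρ.character p) := by
        by_contra hc
        push Not at hc
        apply hex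
        refine ⟨ℓ, hℓ, ψ, fun p hp => ?_⟩
        by_cases h3 : ∃ s ∈ inertia ρ.character p,
            (ψ : (valueField ρ.character ≃ₐ[ℚ] valueField ρ.character) →* ℂˣ) s ≠ 1
        · exact Or.inl h3
        · push Not at h3
          exact Or.inr (hc p hp h3)
      obtain ⟨p, hp, h1, h2⟩ := hblock
      rw [← inertia_eq] at h1 h2
      exact ⟨p, hp, h1, h2⟩

theorem fin_dvd {G V : Type*} [Group G] [Finite G] [AddCommGroup V] [Module ℂ V]
    [FiniteDimensional ℂ V] (ρ : Representation ℂ G V) [ρ.IsIrreducible] {d : ℕ}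
    (hd : d ∣ conductor ρ.character) (h6 : (badPrimes G d).card ≤ 6) :
    (∃ g z, Module.End.HasEigenvalue (ρ g) z ∧ d ∣ orderOf z) ∧
      (∃ g : G, orderOf g = d) ∧
      (valueField ρ.character).relfinrank (valueField ρ.character ⊔ cyc d) ≤
        Module.finrank ℂ V := by
  have hc := conductor_pos ρ
  have hd0 : 0 < d := Nat.pos_of_dvd_of_pos hd hc
  obtain ⟨g, z, hz, hdz⟩ := main_dvd ρ hd h6
  refine ⟨⟨g, z, hz, hdz⟩, ?_, ?_⟩
  · have hdg : d ∣ orderOf g := hdz.trans (orderOf_dvd ρ g hz)
    refine ⟨g ^ (orderOf g / d), ?_⟩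
    rw [orderOf_pow_of_dvd (Nat.div_pos (Nat.le_of_dvd (orderOf_pos g) hdg) hd0).ne'
      (Nat.div_dvd_of_dvd hdg), Nat.div_div_self hdg (orderOf_pos g).ne']
  · have hpos := orderOf_pos_of_eigen ρ g hz
    refine le_trans ?_ (relfinrank_sup_le ρ g hz)
    refine relfinrank_mono le_sup_left (sup_le_sup_left (cyc_le_adjoin hd0 hpos.ne' hdz) _) ?_
    have h2 : FiniteDimensional ℚ (IntermediateField.adjoin ℚ {z}) := by
      apply IntermediateField.adjoin.finiteDimensional
      refine IsIntegral.of_pow hpos ?_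
      rw [pow_orderOf_eq_one]
      exact isIntegral_one
    have h3 : FiniteDimensional ℚ (valueField ρ.character) :=
      finiteDimensional_of_le Nat.card_pos (valueField_le ρ)
    exact IntermediateField.finiteDimensional_sup _ _

end Pool.Agent.CS26
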